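import Mathlib
import Pool.Agent.N70.EQ.Stm

/-!
Statements (NOT results) of the pieces of the project EO (helper70, problems MP_dadaab_nt,
MP_6e3ed7_al, MP_e9d732_al): alternating fibre powers of ODD degree `n`.
-/

set_option autoImplicit false

namespace Pool.Agent.N70.EO

open Polynomial Pool.Agent.H391R2 Pool.Agent.H391R2.T4
open Pool.Agent.N70.EP (SgnIndex)
open Pool.Agent.N70.EQ (FPk fpk)
open Pool.Agent.N600.NS (Degs)

/-- EV: the sign of the permutation `π` for odd `m` (adapt `Pool/Agent/N70/EP/Even.lean`,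
theorem `evenT`, and `det_bz` of `Pool/Agent/N558/AW/Even1.lean`). -/
def St_ev : Prop :=
  ∀ (N : Type) [Field N] [IsAlgClosed N] [CharZero N] (σ : N ≃+* N) (m b : ℕ) (T : N)
    (A q : N[X]) (S L PP : Matrix (Fin m) (Fin m) N[X]) (r : Fin (m * b) → N)
    (e es : Fin (m * b) → Fin m → N) (s : Fin (m * b) → N) (π : Equiv.Perm (Fin (m * b)))
    (ε ε' : ℤˣ) (c w : N), Odd m → 0 < b → Odd b → A.natDegree = b →
    S.det = q ^ 2 → S.transpose = S →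
    L.transpose = L → (∀ l l', ((L * S) l l').natDegree < b) →
    IsCoprime (C T - A) q →
    PP = (C T - A) • (1 : Matrix (Fin m) (Fin m) N[X]) - L * S →
    σ T = T → A.map (σ : N →+* N) = A →
    q.map (σ : N →+* N) = C (((ε : ℤˣ) : ℤ) : N) * q →
    (b : N) * A.coeff b = c ^ 2 → σ c = c →
    w ^ 2 = (((Equiv.Perm.sign (Fin.revPerm : Equiv.Perm (Fin b)) : ℤˣ) : ℤ) : N) * (b : N) →
    σ w = (((ε' : ℤˣ) : ℤ) : N) * w →
    Function.Injective r → (∀ i, s i ≠ 0) →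
    (∀ i l', ∑ l, e i l * (PP l l').eval (r i) = 0) →
    (∀ i l, ∑ l', (PP l l').eval (r i) * es i l' = 0) →
    (∀ i, ∑ l, ∑ l', e i l * (derivative (PP l l')).eval (r i) * es i l' = -(s i) ^ 2) →
    (∀ i l, e i l = ∑ l', (S l l').eval (r i) * es i l') →
    (∀ i, σ (r i) = r (π i)) → (∀ i l, σ (e i l) = e (π i) l) → (∀ i, σ (s i) = s (π i)) →
    Equiv.Perm.sign π = ε * ε'

/-- SG: the sign of a permutation of `r × ℤ/u`. -/
def St_sg : Prop :=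
  ∀ (r u : ℕ), Odd r → u % 4 = 3 → ∀ [NeZero u] (π : Equiv.Perm (Fin r)) (c : Fin r → ZMod u)
    (θ : ℤˣ) (σ : Equiv.Perm (Fin r × ZMod u)),
    (∀ i z, σ (i, z) = (π i, c i + (((θ : ℤˣ) : ℤ) : ZMod u) * z)) →
    Equiv.Perm.sign σ = Equiv.Perm.sign π * θ

/-- Elements of `X` which act trivially on `X / P`, with exactly `u` equal nontrivial labels (up to
conjugation). -/
def TrnU {X B Γ Γ' : Type} [Group X] [Group B] [Group Γ] [Group Γ'] (π : X →* Γ)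
    (P : Subgroup X) (β : P →* B) (a : B →* Γ') (m u : ℕ) : Prop :=
  ∀ ν : B, a ν = 1 → ∃ (γ : X) (h : ∀ g : X, g⁻¹ * γ * g ∈ P), π γ = 1 ∧
    (∀ p : γ ∈ P, β ⟨γ, p⟩ = ν) ∧
    ∀ g : Fin m → X, (∀ t, π (g t) = 1) → Function.Bijective (fun t => (g t : X ⧸ P)) →
      ∀ (A : Type) [CommGroup A] (θ : B → A),
        (∀ b c, a b = 1 → a c = 1 → θ (b * c) = θ b * θ c) →
        ∏ t, θ (β ⟨(g t)⁻¹ * γ * g t, h (g t)⟩) = θ ν ^ u

/-- GX: the group `X = ℤ/u ⋊ SymEP a r`. -/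
def St_gx : Prop :=
  ∀ (H B : Type) [Group H] [Finite H] [Group B] [Finite B] (a : B →* H), Function.Surjective a →
    ∀ (χ : H →* ℤˣ) (u r : ℕ), u % 4 = 3 → Odd r →
    ∃ (X : Type) (_ : Group X) (_ : Finite X) (ξ : X →* SymEP a r) (s : SymEP a r →* X)
      (P : Subgroup X) (β : P →* B), (∀ e, ξ (s e) = e) ∧
      (∀ x y, ξ x = 1 → ξ y = 1 → x * y = y * x) ∧ Function.Surjective β ∧
      (∀ p : P, a (β p) = symProj a r (ξ p)) ∧
      SgnIndex X P (u * r) (χ.comp ((symProj a r).comp ξ)) ∧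
      TrnU ((symProj a r).comp ξ) P β a (u * r) u

/-- GXO: GX from SG. -/
def St_gxOf : Prop := St_sg → St_gx

/-- LY: the field `L(y, √y)`, where `y` is the variable of `RatFunc K`. -/
def St_ly : Prop :=
  ∀ (K L : Type) [Field K] [CharZero K] [Field L] [Algebra K L] [FiniteDimensional K L]
    [IsGalois K L],
    ∃ (L₁ : Type) (_ : Field L₁) (_ : Algebra (RatFunc K) L₁) (_ : Algebra L L₁)
      (_ : Algebra K L₁) (_ : IsScalarTower K (RatFunc K) L₁) (_ : IsScalarTower K L L₁)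
      (_ : FiniteDimensional (RatFunc K) L₁) (_ : IsGalois (RatFunc K) L₁)
      (res : (L₁ ≃ₐ[RatFunc K] L₁) →* (L ≃ₐ[K] L)) (ϖ : L₁),
      Function.Surjective res ∧
      (∀ (h : L₁ ≃ₐ[RatFunc K] L₁) (b : L),
        h (algebraMap L L₁ b) = algebraMap L L₁ (res h b)) ∧
      ϖ ^ 2 = algebraMap (RatFunc K) L₁ RatFunc.X

/-- DY: the index does not become larger over `K(y)`. -/
def St_dy : Prop :=
  ∀ (K L L₁ : Type) [Field K] [CharZero K] [Field L] [Algebra K L] [FiniteDimensional K L]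
    [IsGalois K L] [Field L₁] [Algebra (RatFunc K) L₁] [Algebra L L₁]
    [Algebra K L₁] [IsScalarTower K (RatFunc K) L₁] [IsScalarTower K L L₁]
    [FiniteDimensional (RatFunc K) L₁] [IsGalois (RatFunc K) L₁]
    (res : (L₁ ≃ₐ[RatFunc K] L₁) →* (L ≃ₐ[K] L)),
    (∀ (h : L₁ ≃ₐ[RatFunc K] L₁) (b : L),
        h (algebraMap L L₁ b) = algebraMap L L₁ (res h b)) →
    ∀ (B : Type) [Group B] (a : B →* (L ≃ₐ[K] L)) (m : ℕ), m ∈ Degs K L B a →
      m ∈ Degs (RatFunc K) L₁ (FPk a res) (fpk a res)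

/-- DN1: there are many primes `≡ 3 mod 4`. -/
def St_dna : Prop :=
  ∀ (c : ℕ), 0 < c → ∀ δ : ℝ, 0 < δ → ∃ U : Finset ℕ,
    (∀ u ∈ U, u.Prime ∧ u % 4 = 3 ∧ Nat.Coprime u c) ∧ ∏ u ∈ U, (1 - 1 / (u : ℝ)) < δ

open scoped Classical in
/-- DN: density. -/
def St_dn : Prop :=
  ∀ (D c : ℕ) (A : ℕ → Prop), Odd D → 0 < c →
    (∀ u : ℕ, u.Prime → u % 4 = 3 → Nat.Coprime u c → ∃ s₀ : ℕ, ∀ s ≥ s₀, Odd s →
      ∃ k₀ : ℕ, ∀ k ≥ k₀, A (u * (D * s) * (2 * k + 1))) →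
    ∀ ε : ℝ, 0 < ε → ∃ N : ℕ, ∀ x ≥ N,
      (((Finset.range x).filter fun n => D ∣ n ∧ Odd n ∧ ¬ A n).card : ℝ) ≤ ε * x

/-- DNO: DN from DN1. -/
def St_dnOf : Prop := St_dna → St_dn

end Pool.Agent.N70.EO
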