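import Mathlib

/-!
A transcendence basis over the algebraic closure of `K` in that of `K(y)`.
-/

set_option autoImplicit false

namespace Pool.Agent.N70.EO

section yb

variable {K K₁ k₁ : Type} [Field K] [Field K₁] [Algebra K K₁] [Field k₁] [Algebra K₁ k₁]
  [Algebra K k₁] [IsScalarTower K K₁ k₁] [Algebra.IsAlgebraic K₁ k₁]

theorem basis_y (y : K₁) (hy : Transcendental K y) (hy2 : IntermediateField.adjoin K {y} = ⊤)
    (w : k₁) (E : K) (hw : w ^ 2 * algebraMap K k₁ E = algebraMap K₁ k₁ y) :
    IsTranscendenceBasis (algebraicClosure K k₁) (fun _ : Unit => w) := by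
  have hE : E ≠ 0 := by
    rintro rfl
    rw [map_zero, mul_zero] at hw
    have h1 : y = 0 := (algebraMap K₁ k₁).injective (by rw [← hw, map_zero])
    rw [h1] at hy
    exact hy isAlgebraic_zero
  have h1 : Transcendental K w := by
    intro hwa
    apply hy
    have h2 : IsAlgebraic K (algebraMap K₁ k₁ y) := by
      rw [← hw]
      exact (hwa.pow 2).mul (isAlgebraic_algebraMap E)
    exact (isAlgebraic_algebraMap_iff (algebraMap K₁ k₁).injective).1 h2
  have h2 : Transcendental (algebraicClosure K k₁) w := h1.algebraicClosure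
  have h3 : AlgebraicIndependent (algebraicClosure K k₁) (fun _ : Unit => w) := by
    rw [algebraicIndependent_unique_type_iff]
    exact h2
  rw [h3.isTranscendenceBasis_iff_isAlgebraic]
  -- everything is algebraic over the field generated by `w`
  let F : IntermediateField (algebraicClosure K k₁) k₁ :=
    IntermediateField.adjoin (algebraicClosure K k₁) {w}
  have hK₁ : ∀ z : K₁, algebraMap K₁ k₁ z ∈ F := by
    intro z
    have h4 : z ∈ IntermediateField.adjoin K {y} := by rw [hy2]; exact IntermediateField.mem_top
    have h5 : IntermediateField.adjoin K {y} ≤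
        (F.restrictScalars K).comap (IsScalarTower.toAlgHom K K₁ k₁) := by
      rw [IntermediateField.adjoin_le_iff, Set.singleton_subset_iff]
      change algebraMap K₁ k₁ y ∈ F
      rw [← hw]
      have h6 : w ∈ F := IntermediateField.mem_adjoin_simple_self _ w
      have h7 : algebraMap K k₁ E ∈ F := by
        have h8 := IntermediateField.algebraMap_mem F (algebraMap K (algebraicClosure K k₁) E)
        exact h8
      exact F.mul_mem (pow_mem h6 2) h7
    exact h5 h4
  have hF : Algebra.IsAlgebraic F k₁ := by
    refine ⟨fun z => ?_⟩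
    obtain ⟨p, hp, hp2⟩ := Algebra.IsAlgebraic.isAlgebraic (R := K₁) z
    let f : K₁ →+* F := (algebraMap K₁ k₁).codRestrict F.toSubring.toSubsemiring hK₁
    refine ⟨p.map f, (Polynomial.map_ne_zero_iff f.injective).2 hp, ?_⟩
    have h9 : (algebraMap F k₁).comp f = algebraMap K₁ k₁ := RingHom.ext fun _ => rfl
    rw [Polynomial.aeval_def, Polynomial.eval₂_map, h9]
    exact hp2
  have hrange : Set.range (fun _ : Unit => w) = {w} := Set.range_const
  rw [hrange]
  exact IntermediateField.isAlgebraic_adjoin_iff_top.1 hF

end yb

end Pool.Agent.N70.EO
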