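import Mathlib
import Pool.Agent.N70.EP.Core
import Pool.Agent.N70.EO.Stm
import Pool.Agent.N70.EO.Yb

/-!
The arithmetic step, with an additional parameter `√(y / E)`.
-/

set_option autoImplicit false
set_option linter.unusedSectionVars false
set_option linter.unusedSimpArgs false

namespace Pool.Agent.N70.EO

open Polynomial Pool.Agent.H391R2 Pool.Agent.H391R2.T4 Pool.Agent.N70.AW.EPc
open Pool.Agent.Y793 (Rl AltTw twProj)
open Pool.Agent.N70.EP (ari exists_theta)

theorem finY {K L K₁ L₁ Z k₁ N : Type} [Field K] [CharZero K] [Field L] [Algebra K L]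
    [FiniteDimensional K L] [IsGalois K L] [Field K₁] [Algebra K K₁] [Field L₁] [Algebra K₁ L₁]
    [Algebra K L₁] [IsScalarTower K K₁ L₁] [Algebra L L₁] [IsScalarTower K L L₁]
    [FiniteDimensional K₁ L₁] [IsGalois K₁ L₁]
    [Field Z] [Algebra (RatFunc K₁) Z] [Algebra L₁ Z] [Algebra K₁ Z]
    [IsScalarTower K₁ (RatFunc K₁) Z] [IsScalarTower K₁ L₁ Z] [FiniteDimensional (RatFunc K₁) Z]
    [IsGalois (RatFunc K₁) Z]
    [Field k₁] [IsAlgClosed k₁] [Algebra K₁ k₁] [Algebra K k₁] [IsScalarTower K K₁ k₁]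
    [Algebra.IsAlgebraic K₁ k₁] [Algebra L₁ k₁] [IsScalarTower K₁ L₁ k₁]
    [Field N] [IsAlgClosed N] [Algebra k₁ N] [Algebra K₁ N] [IsScalarTower K₁ k₁ N]
    [Algebra L₁ N] [IsScalarTower L₁ k₁ N] [IsScalarTower K₁ L₁ N]
    (J : Type) [Finite J] (η : J → N) (hη : IsTranscendenceBasis k₁ η)
    (res : (L₁ ≃ₐ[K₁] L₁) →* (L ≃ₐ[K] L))
    (hres : ∀ (h : L₁ ≃ₐ[K₁] L₁) (b : L), h (algebraMap L L₁ b) = algebraMap L L₁ (res h b))
    (y : K₁) (hy : Transcendental K y) (hy2 : IntermediateField.adjoin K {y} = ⊤)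
    (ϖ : L₁) (hϖ : ϖ ^ 2 = algebraMap K₁ L₁ y)
    (E : K) (w : k₁) (hE : E ≠ 0) (hw : w ^ 2 = algebraMap K k₁ E)
    (π : (Z ≃ₐ[RatFunc K₁] Z) →* (L₁ ≃ₐ[K₁] L₁))
    (hπ : ∀ (σ : Z ≃ₐ[RatFunc K₁] Z) (x : L₁), σ (algebraMap L₁ Z x) = algebraMap L₁ Z (π σ x))
    (P : Subgroup (Z ≃ₐ[RatFunc K₁] Z)) (n : ℕ)
    (χ : (L ≃ₐ[K] L) →* ℤˣ) (ψ : (L₁ ≃ₐ[K₁] L₁) →* ℤˣ)
    (hψ : ∀ h : L₁ ≃ₐ[K₁] L₁, h ϖ = ((ψ h : ℤˣ) : ℤ) • ϖ)
    {B : Type} [Group B] [Finite B] (β : P →* B) (hβ : Function.Surjective β)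
    (a : B →* (L ≃ₐ[K] L)) (ha : ∀ p : P, a (β p) = res (π p))
    (r : Fin n → N) (hr : Function.Injective r) (φ : Fin n → (Z →ₐ[L₁] N))
    (H1 : ∀ σ : N ≃ₐ[K₁] N, (∀ i, σ (η i) = η i) → ∀ ε' : ℤˣ,
      σ (algebraMap k₁ N w) = (((ε' : ℤˣ) : ℤ) : N) * algebraMap k₁ N w →
      ∀ h : L₁ ≃ₐ[K₁] L₁, (∀ b : L₁, σ (algebraMap L₁ N b) = algebraMap L₁ N (h b)) →
      ∃ y : Wr P n, Equiv.Perm.sign y.right = χ (res h) * ψ h * ε' ∧
        Rl r (fun i => (φ i).restrictScalars K₁) σ y)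
    (H2 : ∀ z : Wr a.ker n, Equiv.Perm.sign z.right = 1 →
      ∃ (σ : N ≃ₐ[k₁] N) (y' : Wr P n), (∀ i, σ (η i) = η i) ∧
        Rl r (fun i => (φ i).restrictScalars K₁) σ y' ∧ y'.right = z.right ∧
        ∀ j, β (y'.left j) = (z.left j : B)) :
    RegSol K L (AltTw a χ n) (twProj a χ n) := by
  classical
  have hcK₁ : CharZero K₁ := charZero_of_injective_algebraMap (algebraMap K K₁).injective
  have hck₁ : CharZero k₁ := charZero_of_injective_algebraMap (algebraMap K₁ k₁).injective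
  have hcN : CharZero N := charZero_of_injective_algebraMap (algebraMap k₁ N).injective
  have hw0 : w ≠ 0 := by
    rintro rfl
    rw [zero_pow two_ne_zero] at hw
    apply hE
    apply (algebraMap K k₁).injective
    rw [← hw, map_zero]
  have hϖ0 : ϖ ≠ 0 := by
    rintro rfl
    rw [zero_pow two_ne_zero] at hϖ
    have h1 : y = 0 := (algebraMap K₁ L₁).injective (by rw [← hϖ, map_zero])
    rw [h1] at hy
    exact hy isAlgebraic_zero
  let w' : k₁ := algebraMap L₁ k₁ ϖ / w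
  have hw' : w' ^ 2 * algebraMap K k₁ E = algebraMap K₁ k₁ y := by
    change (algebraMap L₁ k₁ ϖ / w) ^ 2 * _ = _
    rw [← hw, div_pow, div_mul_cancel₀ _ (pow_ne_zero 2 hw0), ← map_pow, hϖ,
      ← IsScalarTower.algebraMap_apply]
  have hw'2 : w' * w = algebraMap L₁ k₁ ϖ := div_mul_cancel₀ _ hw0
  have hw'0 : w' ≠ 0 := div_ne_zero (by
    rw [Ne, FaithfulSMul.algebraMap_eq_zero_iff]
    exact hϖ0) hw0
  have hcl : IsAlgClosure K (algebraicClosure K k₁) := inferInstance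
  have hAcl : IsAlgClosed (algebraicClosure K k₁) := hcl.isAlgClosed
  have hAalg : Algebra.IsAlgebraic K (algebraicClosure K k₁) := hcl.isAlgebraic
  -- the embedding of `L`
  let ιL : L →+* k₁ := (algebraMap L₁ k₁).comp (algebraMap L L₁)
  have hιK : ∀ c : K, ιL (algebraMap K L c) = algebraMap K k₁ c := by
    intro c
    change algebraMap L₁ k₁ (algebraMap L L₁ (algebraMap K L c)) = _
    rw [← IsScalarTower.algebraMap_apply K L L₁, IsScalarTower.algebraMap_apply K K₁ L₁,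
      ← IsScalarTower.algebraMap_apply K₁ L₁ k₁, ← IsScalarTower.algebraMap_apply K K₁ k₁]
  have hιmem : ∀ b : L, ιL b ∈ algebraicClosure K k₁ := by
    intro b
    rw [mem_algebraicClosure_iff]
    obtain ⟨p, hp, hp2⟩ := Algebra.IsAlgebraic.isAlgebraic (R := K) b
    refine ⟨p, hp, ?_⟩
    have h1 : (aeval (ιL b)) p = ιL ((aeval b) p) := by
      rw [aeval_def, aeval_def, hom_eval₂]
      congr 1
      exact RingHom.ext fun c => (hιK c).symm
    rw [h1, hp2, map_zero]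
  let iLA : Algebra L (algebraicClosure K k₁) :=
    (ιL.codRestrict (algebraicClosure K k₁).toSubring.toSubsemiring hιmem).toAlgebra
  have hiLA : ∀ b : L, ((algebraMap L (algebraicClosure K k₁) b : algebraicClosure K k₁) : k₁) =
      ιL b := fun b => rfl
  have tKLA : IsScalarTower K L (algebraicClosure K k₁) := .of_algebraMap_eq fun c => by
    apply Subtype.ext
    rw [hiLA, hιK]
    rfl
  have hiAN : ∀ b : algebraicClosure K k₁, algebraMap (algebraicClosure K k₁) N b =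
      algebraMap k₁ N (b : k₁) := fun b => rfl
  have tAkN : IsScalarTower (algebraicClosure K k₁) k₁ N := inferInstance
  let iKN : Algebra K N := ((algebraMap k₁ N).comp (algebraMap K k₁)).toAlgebra
  have hiKN : ∀ c : K, algebraMap K N c = algebraMap k₁ N (algebraMap K k₁ c) := fun b => rfl
  let iLN : Algebra L N := ((algebraMap k₁ N).comp ιL).toAlgebra
  have hiLN : ∀ b : L, algebraMap L N b = algebraMap k₁ N (ιL b) := fun b => rfl
  have hiLN2 : ∀ b : L, algebraMap L N b = algebraMap L₁ N (algebraMap L L₁ b) := fun b => by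
    rw [hiLN, IsScalarTower.algebraMap_apply L₁ k₁ N]
    rfl
  have tKAN : IsScalarTower K (algebraicClosure K k₁) N := .of_algebraMap_eq fun c => by
    rw [hiAN]
    rfl
  have tLAN : IsScalarTower L (algebraicClosure K k₁) N := .of_algebraMap_eq fun c => by
    rw [hiAN, hiLA]
    rfl
  -- the transcendence basis
  have hb1 := basis_y y hy hy2 w' E hw'
  have hη' : IsTranscendenceBasis (algebraicClosure K k₁)
      (Sum.elim η (algebraMap k₁ N ∘ fun _ : Unit => w')) := hb1.sumElim_comp hη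
  -- the labels
  obtain ⟨θ, hθ⟩ := exists_theta (β.ker.map P.subtype)
  have hθ2 : ∀ p p' : P, (p : Z ≃ₐ[RatFunc K₁] Z) θ = (p' : Z ≃ₐ[RatFunc K₁] Z) θ ↔
      β p = β p' := by
    intro p p'
    have h1 : ((p⁻¹ * p' : P) : Z ≃ₐ[RatFunc K₁] Z) θ = θ ↔ β p = β p' := by
      rw [hθ]
      constructor
      · intro h
        obtain ⟨u, hu, hu2⟩ := Subgroup.mem_map.1 h
        have h3 : u = p⁻¹ * p' := Subtype.ext hu2
        rw [h3, MonoidHom.mem_ker, map_mul, map_inv] at hu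
        exact inv_mul_eq_one.1 hu
      · intro h
        refine Subgroup.mem_map.2 ⟨p⁻¹ * p', ?_, rfl⟩
        rw [MonoidHom.mem_ker, map_mul, map_inv]
        exact inv_mul_eq_one.2 h
    rw [← h1]
    constructor
    · intro h
      change (p : Z ≃ₐ[RatFunc K₁] Z).symm ((p' : Z ≃ₐ[RatFunc K₁] Z) θ) = θ
      rw [← h]
      exact AlgEquiv.symm_apply_apply _ _
    · intro h
      change (p : Z ≃ₐ[RatFunc K₁] Z).symm ((p' : Z ≃ₐ[RatFunc K₁] Z) θ) = θ at h
      rw [AlgEquiv.symm_apply_eq] at h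
      exact h.symm
  choose s hs using hβ
  refine ari K L (algebraicClosure K k₁) N (J ⊕ Unit)
    (Sum.elim η (algebraMap k₁ N ∘ fun _ : Unit => w')) hη' B n
    (AltTw a χ n) r hr
    (fun i b => φ i ((s b : Z ≃ₐ[RatFunc K₁] Z) θ)) ?_ ?_ ?_
  · intro i b b' hb
    have h4 : (s b : Z ≃ₐ[RatFunc K₁] Z) θ = (s b' : Z ≃ₐ[RatFunc K₁] Z) θ := (φ i).injective hb
    rw [hθ2, hs, hs] at h4
    exact h4
  · intro σ hσ
    have hσ1 : ∀ j, σ (η j) = η j := fun j => hσ (Sum.inl j)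
    have hσw' : σ (algebraMap k₁ N w') = algebraMap k₁ N w' := hσ (Sum.inr ())
    -- `σ` fixes `K₁`
    have hfixy : σ (algebraMap K₁ N y) = algebraMap K₁ N y := by
      have h1 : algebraMap K₁ N y = algebraMap k₁ N w' ^ 2 * algebraMap K N E := by
        rw [hiKN, ← map_pow, ← map_mul, hw', ← IsScalarTower.algebraMap_apply]
      rw [h1, map_mul, map_pow, hσw', σ.commutes]
    have tKK₁N : IsScalarTower K K₁ N := .of_algebraMap_eq fun c => by
      rw [hiKN, IsScalarTower.algebraMap_apply K K₁ k₁, ← IsScalarTower.algebraMap_apply K₁ k₁ N]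
    have hfix : ∀ z : K₁, σ (algebraMap K₁ N z) = algebraMap K₁ N z := by
      intro z
      let F : IntermediateField K K₁ :=
        { carrier := {z | σ (algebraMap K₁ N z) = algebraMap K₁ N z}
          mul_mem' := fun {a b} (h1 : σ _ = _) (h2 : σ _ = _) => by
            change σ (algebraMap K₁ N (a * b)) = _
            rw [map_mul, map_mul, h1, h2]
          add_mem' := fun {a b} (h1 : σ _ = _) (h2 : σ _ = _) => by
            change σ (algebraMap K₁ N (a + b)) = _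
            rw [map_add, map_add, h1, h2]
          algebraMap_mem' := fun c => by
            change σ (algebraMap K₁ N (algebraMap K K₁ c)) = _
            rw [← IsScalarTower.algebraMap_apply K K₁ N, σ.commutes]
          inv_mem' := fun b (h1 : σ _ = _) => by
            change σ (algebraMap K₁ N b⁻¹) = _
            rw [map_inv₀, map_inv₀, h1] }
      have h1 : IntermediateField.adjoin K {y} ≤ F := by
        rw [IntermediateField.adjoin_le_iff, Set.singleton_subset_iff]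
        exact hfixy
      rw [hy2] at h1
      exact h1 (IntermediateField.mem_top (x := z))
    let σ' : N ≃ₐ[K₁] N := AlgEquiv.ofRingEquiv (f := σ.toRingEquiv) hfix
    have hσ' : ∀ x, σ' x = σ x := fun x => rfl
    let h : L₁ ≃ₐ[K₁] L₁ := σ'.restrictNormal L₁
    have hh : ∀ b : L₁, σ' (algebraMap L₁ N b) = algebraMap L₁ N (h b) := fun b =>
      (AlgEquiv.restrictNormal_commutes σ' L₁ b).symm
    -- the sign of `w`
    have hsq : (σ' (algebraMap k₁ N w)) ^ 2 = (algebraMap k₁ N w) ^ 2 := by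
      rw [← map_pow, ← map_pow, hw, hσ']
      exact σ.commutes E
    have hε : ∃ ε' : ℤˣ, σ' (algebraMap k₁ N w) = (((ε' : ℤˣ) : ℤ) : N) * algebraMap k₁ N w := by
      rcases sq_eq_sq_iff_eq_or_eq_neg.1 hsq with h1 | h1
      · exact ⟨1, by rw [h1]; simp⟩
      · exact ⟨-1, by rw [h1]; simp⟩
    obtain ⟨ε', hε'⟩ := hε
    have hwN0 : algebraMap k₁ N w ≠ 0 := by
      rw [Ne, FaithfulSMul.algebraMap_eq_zero_iff]
      exact hw0
    have hw'N0 : algebraMap k₁ N w' ≠ 0 := by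
      rw [Ne, FaithfulSMul.algebraMap_eq_zero_iff]
      exact hw'0
    have hψε : ψ h = ε' := by
      have h1 := hh ϖ
      rw [IsScalarTower.algebraMap_apply L₁ k₁ N, ← hw'2, map_mul, map_mul, hε', hσ', hσw', hψ,
        map_zsmul, IsScalarTower.algebraMap_apply L₁ k₁ N, ← hw'2, map_mul, zsmul_eq_mul] at h1
      have h2 : (((ε' : ℤˣ) : ℤ) : N) * (algebraMap k₁ N w' * algebraMap k₁ N w) =
          (((ψ h : ℤˣ) : ℤ) : N) * (algebraMap k₁ N w' * algebraMap k₁ N w) := by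
        rw [← h1]
        ring
      have h3 := mul_right_cancel₀ (mul_ne_zero hw'N0 hwN0) h2
      have h4 : ((ε' : ℤˣ) : ℤ) = ((ψ h : ℤˣ) : ℤ) := by exact_mod_cast h3
      exact (Units.ext h4).symm
    obtain ⟨y₀, hy1, hy3⟩ := H1 σ' hσ1 ε' hε' h hh
    have hsgn : Equiv.Perm.sign y₀.right = χ (res h) := by
      rw [hy1, hψε, mul_assoc, Int.units_mul_self, mul_one]
    have key : ∀ i, π (y₀.left (y₀.right i) : Z ≃ₐ[RatFunc K₁] Z) = h := by
      intro i
      apply AlgEquiv.ext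
      intro b
      apply (algebraMap L₁ N).injective
      rw [← hh]
      have h4 : algebraMap L₁ N b = φ i (algebraMap L₁ Z b) := ((φ i).commutes b).symm
      have h5 := (hy3 i).2 (algebraMap L₁ Z b)
      change σ' (φ i (algebraMap L₁ Z b)) = φ (y₀.right i) _ at h5
      rw [h4, h5, hπ, (φ (y₀.right i)).commutes]
    refine ⟨(⟨fun j => β (y₀.left j), y₀.right⟩, res h), Subgroup.mem_inf.2 ⟨?_, hsgn⟩,
      fun b => ?_, fun i => ⟨(hy3 i).1, fun b => ?_⟩⟩
    · intro j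
      obtain ⟨i, rfl⟩ := y₀.right.surjective j
      change a (β (y₀.left (y₀.right i))) = res h
      rw [ha, key]
    · rw [hiLN2, hiLN2, ← hres, ← hh]
      rfl
    · have h5 := (hy3 i).2 ((s b : Z ≃ₐ[RatFunc K₁] Z) θ)
      change σ (φ i _) = φ (y₀.right i) _ at h5
      rw [h5]
      congr 1
      change ((y₀.left (y₀.right i) * s b : P) : Z ≃ₐ[RatFunc K₁] Z) θ =
        (s (β (y₀.left (y₀.right i)) * b) : Z ≃ₐ[RatFunc K₁] Z) θ
      rw [hθ2, hs, map_mul, hs]
  · intro z hz hz1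
    have hzα : ∀ j, a (z.1.left j) = 1 := by
      intro j
      have h1 : a (z.1.left j) = z.2 := (Subgroup.mem_inf.1 hz).1 j
      rw [h1, hz1]
    have hzs : Equiv.Perm.sign z.1.right = 1 := by
      have h1 : Equiv.Perm.sign z.1.right = χ z.2 := (Subgroup.mem_inf.1 hz).2
      rw [h1, hz1, map_one]
    obtain ⟨σ, y', h1, h2, h3, h4⟩ := H2 ⟨fun j => ⟨z.1.left j, MonoidHom.mem_ker.2 (hzα j)⟩,
      z.1.right⟩ hzs
    have h3' : y'.right = z.1.right := h3
    refine ⟨σ.restrictScalars (algebraicClosure K k₁), ?_, fun i => ⟨?_, fun b => ?_⟩⟩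
    · rintro (j | j)
      · exact h1 j
      · exact σ.commutes w'
    · rw [← h3']
      exact (h2 i).1
    · have h5 := (h2 i).2 ((s b : Z ≃ₐ[RatFunc K₁] Z) θ)
      change σ (φ i _) = φ (y'.right i) _ at h5
      change σ (φ i _) = _
      rw [h5, h3']
      congr 1
      have h6 : z.1.left (z.1.right i) = β (y'.left (z.1.right i)) := (h4 (z.1.right i)).symm
      change ((y'.left (z.1.right i) * s b : P) : Z ≃ₐ[RatFunc K₁] Z) θ =
        (s (z.1.left (z.1.right i) * b) : Z ≃ₐ[RatFunc K₁] Z) θ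
      rw [hθ2, hs, map_mul, hs, h6]

end Pool.Agent.N70.EO
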