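import Mathlib
import Pool.Agent.N70.EP.Sg
import Pool.Agent.N70.EO.Stm

/-!
The sign of the action on the solutions, odd `m` (adapted from EP/Sg.lean).
-/

set_option autoImplicit false
set_option linter.unusedSectionVars false
set_option linter.unusedSimpArgs false

namespace Pool.Agent.N70.EO

open Polynomial Pool.Agent.H391R2 Pool.Agent.H391R2.T4
open Pool.Agent.N70.AW.EPc
open Pool.Agent.N70.AW (BF_mem BF_AA AA_coeff lk lk_coeff AA AA_natDegree AA_map pz MM PM MM_deg MM_fac)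
open Pool.Agent.N70.EP (Dt0 evenT)
open Pool.Agent.Y793 (cl sub_cl cl_closed cl_le St_gen St_iso St_ext St_grp tz fac_simple Rl HH AWr)

section sols

variable {K Z N ι : Type} [Field K] [CharZero K] [Field Z] [Algebra (RatFunc K) Z] [Algebra K Z]
  [IsScalarTower K (RatFunc K) Z] [FiniteDimensional (RatFunc K) Z] [IsGalois (RatFunc K) Z]
  [Fintype ι] [Field N] [Algebra K N] [IsAlgClosed N]
  {P : Subgroup (Z ≃ₐ[RatFunc K] Z)} {m k d : ℕ} {κ : Option ι → K[X]} {v : Option ι → Z}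
  {x : Option ι → Option ι → Z} {e es : Fin m → Z} {S : Matrix (Fin m) (Fin m) K[X]}
  {M L : Option ι → Option ι → Matrix (Fin m) (Fin m) K[X]}
  (D : Dt0 P m k d κ v x e es S M L)
  {k₀ : Type} [Field k₀] [Algebra K k₀] [Algebra k₀ N] [IsScalarTower K k₀ N]
  (η : Pool.Agent.N70.AW.Ix ι → N) (hη : IsTranscendenceBasis k₀ η)

include D hη

/-- The sign of the action of the automorphisms on the points. -/
theorem exists_xO (hev : St_ev) (hgen : St_gen) (hiso : St_iso) (hm : Odd m)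
    {q : K[X]} {δ : K} (hdet : S.det = C δ * q ^ 2) (hq : q ≠ 0) {ρ : N} (hρ0 : ρ ≠ 0)
    (hρ : ρ ^ 2 = algebraMap K N δ) {w : N}
    (hw : w ^ 2 = (((Equiv.Perm.sign (Fin.revPerm : Equiv.Perm (Fin (2 * k + 1))) : ℤˣ) : ℤ) : N) *
      ((2 * k + 1 : ℕ) : N))
    {r : Fin (m * (2 * k + 1)) → N} {φ : Fin (m * (2 * k + 1)) → (Z →ₐ[K] N)}
    (Y : Sy κ x M k₀ (fun i => η (Sum.inl i)) (η (Sum.inr ())) _ r φ) (σ : N ≃ₐ[K] N)
    (hσ : ∀ i, σ (η i) = η i) (ε ε' : ℤˣ) (hε : σ ρ = (((ε : ℤˣ) : ℤ) : N) * ρ)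
    (hε' : σ w = (((ε' : ℤˣ) : ℤ) : N) * w) :
    ∃ y : Wr P (m * (2 * k + 1)), Equiv.Perm.sign y.right = ε * ε' ∧ Rl r φ σ y := by
  have hcN : CharZero N := charZero_of_injective_algebraMap (algebraMap K N).injective
  obtain ⟨y, hy⟩ := exists_x0 D η hη hgen hiso Y σ hσ
  refine ⟨y, ?_, hy⟩
  have hc3 : (fun i => (σ : N →ₐ[K] N) (η (Sum.inl i))) = fun i : Option ι => η (Sum.inl i) :=
    funext fun i => hσ _
  have hKσ : ((σ : N →ₐ[K] N) : N →+* N).comp (algebraMap K N) = algebraMap K N :=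
    (σ : N →ₐ[K] N).comp_algebraMap
  have hP : ∀ (z : Z), (∀ γ ∈ P, γ z = z) → ∀ i, σ (φ i z) = φ (y.right i) z := by
    intro z hz i
    rw [(hy i).2, hz _ (y.left (y.right i)).2]
  have hLP : ∀ i, FF κ x (fun i => η (Sum.inl i)) (φ i) = η (Sum.inr ()) := fun i => (Y.lp i).hT
  have hAc := AA_coeff κ D.kdeg (fun i => η (Sum.inl i))
  refine hev N σ.toRingEquiv m (2 * k + 1) (η (Sum.inr ())) (AA κ fun i => η (Sum.inl i))
    (C ρ * q.map (algebraMap K N)) (S.map (Polynomial.map (algebraMap K N)))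
    (MM L fun i => η (Sum.inl i)) (PM κ M (fun i => η (Sum.inl i)) (η (Sum.inr ()))) r
    (fun i l => φ i (e l)) (fun i l => φ i (es l))
    (fun i => ∑ j, η (Sum.inl j) * φ i (v j)) y.right ε ε'
    ((lk κ (fun i => η (Sum.inl i))).coeff k) w hm (by omega) ⟨k, rfl⟩
    (AA_natDegree κ D.kdeg _ (AAne D η hη)) ?_ ?_ ?_ ?_ ?_ ?_ (hσ _) ?_ ?_ ?_ ?_ hw hε' Y.inj
    ?_ ?_ ?_ ?_ ?_ ?_ ?_ ?_
  · have h1 := (Polynomial.mapRingHom (algebraMap K N)).map_det S
    rw [coe_mapRingHom, hdet, Polynomial.map_mul, map_C, Polynomial.map_pow, ← hρ] at h1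
    have h2 : (S.map (Polynomial.map (algebraMap K N))).det =
        ((Polynomial.mapRingHom (algebraMap K N)).mapMatrix S).det := rfl
    rw [h2, ← h1, mul_pow, ← C_pow]
  · rw [← Matrix.transpose_map, D.symS]
  · funext l l'
    rw [Matrix.transpose_apply]
    unfold MM
    refine Finset.sum_congr rfl fun i _ => ?_
    refine Finset.sum_congr rfl fun j _ => ?_
    have h1 : L i j l' l = L i j l l' := by
      rw [← Matrix.transpose_apply (L i j) l l', D.symL]
    rw [h1]
  · intro l l'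
    rw [← MM_fac M L S D.fac]
    exact lt_of_le_of_lt (MM_deg M D.deg _ l l') (by
      have := D.dk
      omega)
  · -- coprime
    rw [isCoprime_iff_aeval_ne_zero_of_isAlgClosed N N]
    intro a
    by_contra hcon
    push Not at hcon
    obtain ⟨h1, h2⟩ := hcon
    rw [coe_aeval_eq_eval] at h1 h2
    have ha : IsAlgebraic K a := by
      refine ⟨q, hq, ?_⟩
      rw [← eval_map_algebraMap]
      rw [eval_mul, eval_C] at h2
      exact (mul_eq_zero.1 h2).resolve_left hρ0
    have hmem : a ∈ cl k₀ (Set.range fun i => η (Sum.inl i)) :=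
      cl_closed ((ha.tower_top k₀).tower_top _)
    apply T_not_mem η hη
    have h3 : η (Sum.inr ()) = (AA κ fun i => η (Sum.inl i)).eval a := by
      rw [eval_sub, eval_C] at h1
      linear_combination h1
    rw [h3]
    have h4 := BF_mem (κ := κ) (cl k₀ (Set.range fun i => η (Sum.inl i)))
      (fun i => η (Sum.inl i)) (fun i => η (Sum.inl i)) (fun i => sub_cl _ ⟨i, rfl⟩)
      (fun i => sub_cl _ ⟨i, rfl⟩) hmem (fun _ _ => 0) (fun _ _ => IntermediateField.zero_mem _)
    rw [BF_AA] at h4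
    simpa using h4
  · unfold PM
    rw [← MM_fac M L S D.fac]
  · have h1 := AA_map κ (σ : N →ₐ[K] N) (fun i => η (Sum.inl i))
    rw [hc3] at h1
    exact h1
  · have h1 : (q.map (algebraMap K N)).map ((σ.toRingEquiv : N ≃+* N) : N →+* N) =
        q.map (algebraMap K N) := by
      rw [Polynomial.map_map]
      congr 1
    rw [Polynomial.map_mul, map_C, h1, ← mul_assoc, ← C_mul]
    congr 2
  · rw [hAc, ← mul_assoc]
    have h1 : (((2 * k + 1 : ℕ) : N)) * algebraMap K N (((2 * k : ℕ) : K) + 1)⁻¹ = 1 := by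
      have h2 : (((2 * k + 1 : ℕ) : N)) = algebraMap K N (((2 * k : ℕ) : K) + 1) := by
        rw [map_add, map_one, map_natCast, Nat.cast_succ]
      rw [h2, ← map_mul, mul_inv_cancel₀, map_one]
      exact_mod_cast Nat.succ_ne_zero (2 * k)
    rw [h1, one_mul]
  · rw [lk_coeff]
    change (σ : N ≃ₐ[K] N) _ = _
    rw [map_sum]
    refine Finset.sum_congr rfl fun j _ => ?_
    rw [map_mul, σ.commutes, hσ]
  · intro i
    exact s_ne D η hη hgen (Y.lp i)
  · intro i l'
    have h1 := row D (φ i) (fun i => η (Sum.inl i)) (η (Sum.inr ())) l'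
    rw [hLP, sub_self, zero_mul, Y.val] at h1
    exact h1
  · intro i l
    have h1 := col D (φ i) (fun i => η (Sum.inl i)) (η (Sum.inr ())) l
    rw [hLP, sub_self, zero_mul, Y.val] at h1
    exact h1
  · intro i
    have h1 := der' D (φ i) (fun i => η (Sum.inl i)) (η (Sum.inr ()))
    rw [Y.val] at h1
    exact h1
  · intro i l
    have h1 := congrArg (φ i) (D.e_es l)
    rw [map_sum] at h1
    rw [h1]
    refine Finset.sum_congr rfl fun l' _ => ?_
    rw [map_mul, ev_pz, Y.val]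
    rfl
  · intro i
    exact (hy i).1
  · intro i l
    exact hP _ (D.fix_e l) i
  · intro i
    change σ (∑ j, η (Sum.inl j) * φ i (v j)) = _
    rw [map_sum]
    refine Finset.sum_congr rfl fun j _ => ?_
    rw [map_mul, hσ, hP _ (D.fix_v j)]

end sols

end Pool.Agent.N70.EO
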