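import Mathlib
import Pool.Agent.N70.EQ.Fin
import Pool.Agent.N70.EO.Stm

/-!
Kummer theory: a nontrivial character is detected (adapted from N568/EQ/KUMO.lean).
-/

set_option autoImplicit false

namespace Pool.Agent.N70.EO

open Polynomial Pool.Agent.H391R2 Pool.Agent.N70.AW Pool.Agent.N70.EQ
open Pool.Agent.N70.EP (Dt0)
open Pool.Agent.Y793 (Rl)
open Pool.Agent.N568.EQ


/-- The product over the cosets is multiplied by the product of the characters. -/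
theorem trn_prod' {K Z : Type} [Field K] [Field Z] [Algebra (RatFunc K) Z] [Algebra K Z]
    [IsScalarTower K (RatFunc K) Z] {P : Subgroup (Z ≃ₐ[RatFunc K] Z)} {G : Type} [Group G]
    (β : P →* G) (θ : G →* Kˣ) {z : Z}
    (hz : ∀ γ : P, (γ : Z ≃ₐ[RatFunc K] Z) z = algebraMap K Z (θ (β γ) : K) * z)
    {m : ℕ} (g : Fin m → (Z ≃ₐ[RatFunc K] Z))
    (γ : Z ≃ₐ[RatFunc K] Z) (h : ∀ g : Z ≃ₐ[RatFunc K] Z, g⁻¹ * γ * g ∈ P) :
    γ (∏ t, g t z) = algebraMap K Z ((∏ t, θ (β ⟨(g t)⁻¹ * γ * g t, h (g t)⟩) : Kˣ) : K) *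
      ∏ t, g t z := by
  have hstep : ∀ t, γ (g t z) =
      algebraMap K Z (θ (β ⟨(g t)⁻¹ * γ * g t, h (g t)⟩) : K) * g t z := by
    intro t
    have e1 : γ (g t z) = g t (((g t)⁻¹ * γ * g t) z) := by
      rw [AlgEquiv.mul_apply, AlgEquiv.mul_apply, ← AlgEquiv.mul_apply (g t), mul_inv_cancel,
        AlgEquiv.one_apply]
    have e2 := hz ⟨(g t)⁻¹ * γ * g t, h (g t)⟩
    change ((g t)⁻¹ * γ * g t) z = _ at e2
    rw [e1, e2, map_mul, emb_K]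
  rw [map_prod, Finset.prod_congr rfl fun t _ => hstep t, Finset.prod_mul_distrib,
    Units.coe_prod, map_prod]

/-- A character `θ` is detected by an automorphism, if it is detected on `Z`. -/
theorem kumW (K Z N ι : Type) [Field K] [CharZero K] [Field Z] [Algebra (RatFunc K) Z]
    [Algebra K Z]
    [IsScalarTower K (RatFunc K) Z] [FiniteDimensional (RatFunc K) Z] [IsGalois (RatFunc K) Z]
    [Fintype ι] [Field N] [Algebra K N] [IsAlgClosed N] (P : Subgroup (Z ≃ₐ[RatFunc K] Z))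
    (m k d : ℕ) (κ : Option ι → K[X]) (v : Option ι → Z) (x : Option ι → Option ι → Z)
    (e es : Fin m → Z) (S : Matrix (Fin m) (Fin m) K[X])
    (M L : Option ι → Option ι → Matrix (Fin m) (Fin m) K[X])
    (D : Dt0 P m k d κ v x e es S M L) (hm : 0 < m)
    (hreg : ∀ y : Z, IsAlgebraic K y → y ∈ Set.range (algebraMap K Z))
    (g : Fin m → (Z ≃ₐ[RatFunc K] Z))
    (hg : Function.Bijective (fun t => (g t : (Z ≃ₐ[RatFunc K] Z) ⧸ P)))
    (k₀ : Type) [Field k₀] [Algebra K k₀] [Algebra k₀ N] [IsScalarTower K k₀ N]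
    [IsAlgClosed k₀] [Algebra.IsAlgebraic K k₀] (η : Pool.Agent.N70.AW.Ix ι → N)
    (hη : IsTranscendenceBasis k₀ η)
    (r : Fin (m * (2 * k + 1)) → N) (φ : Fin (m * (2 * k + 1)) → (Z →ₐ[K] N))
    (Y : EPc.Sy κ x M k₀ (fun i => η (Sum.inl i)) (η (Sum.inr ())) (m * (2 * k + 1)) r φ)
    (G : Type) [Group G] [Finite G] (β : P →* G) (θ : G →* Kˣ)
    (hW : ∃ (γ : Z ≃ₐ[RatFunc K] Z) (h : ∀ g : Z ≃ₐ[RatFunc K] Z, g⁻¹ * γ * g ∈ P),
      ∏ t, θ (β ⟨(g t)⁻¹ * γ * g t, h (g t)⟩) ≠ 1) :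
      ∃ (σ : N ≃ₐ[k₀] N) (y : Wr P (m * (2 * k + 1))), (∀ i, σ (η i) = η i) ∧ Rl r φ σ y ∧
        ∏ i, θ (β (y.left i)) ≠ 1 := by
  by_contra hcon
  push Not at hcon
  have hdd : 0 < Nat.card G := Nat.card_pos
  obtain ⟨dd, hdd'⟩ : ∃ dd, dd = Nat.card G := ⟨_, rfl⟩
  rw [← hdd'] at hdd
  have hpow : ∀ a : G, (θ a : K) ^ dd = 1 := by
    intro a
    rw [← Units.val_pow_eq_pow_val, ← map_pow, hdd', pow_card_eq_one', map_one, Units.val_one]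
  obtain ⟨z0, hz0, hz0'⟩ := N441.EQ.t_ka K Z P (θ.comp β)
  have hf0 : ∀ γ ∈ P, γ (z0 ^ dd) = z0 ^ dd := by
    intro γ hγ
    have h1 := hz0' ⟨γ, hγ⟩
    change γ z0 = algebraMap K Z (θ (β ⟨γ, hγ⟩) : K) * z0 at h1
    rw [map_pow, h1, mul_pow, ← map_pow, hpow, map_one, one_mul]
  obtain ⟨q, F0, hq, hF0⟩ := N426.EQ.t_kb K Z P m e es D.fix_e D.fix_es D.dual1 D.dual0 (z0 ^ dd) hf0
  have hpq := pz_ne (Z := Z) hq
  obtain ⟨z, hz⟩ : ∃ z, z = pz Z q * z0 := ⟨_, rfl⟩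
  have hzne : z ≠ 0 := by rw [hz]; exact mul_ne_zero hpq hz0
  have hzP : ∀ γ : P, (γ : Z ≃ₐ[RatFunc K] Z) z = algebraMap K Z (θ (β γ) : K) * z := by
    intro γ
    have h1 := hz0' γ
    change (γ : Z ≃ₐ[RatFunc K] Z) z0 = algebraMap K Z (θ (β γ) : K) * z0 at h1
    rw [hz, map_mul, pz_fix, h1]
    ring
  obtain ⟨n, hn⟩ : ∃ n, dd = n + 1 := ⟨dd - 1, by omega⟩
  obtain ⟨F, hF⟩ : ∃ F : Matrix (Fin m) (Fin m) K[X], F = fun l l' => q ^ n * F0 l l' := ⟨_, rfl⟩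
  have hmul : ∀ l', z ^ dd * e l' = ∑ l, pz Z (F l l') * e l := by
    intro l'
    have h1 : z ^ dd * e l' = pz Z q ^ n * (pz Z q * z0 ^ dd * e l') := by
      rw [hz, mul_pow]
      nth_rewrite 1 [hn]
      rw [pow_succ]
      ring
    rw [h1, hF0, Finset.mul_sum]
    refine Finset.sum_congr rfl fun l _ => ?_
    rw [hF]
    simp only [pz_eq, map_mul, map_pow]
    ring
  have hdet := N603.EQ.t_kc K Z P m g hg.1 e es D.fix_e D.fix_es D.dual1 D.dual0 (z ^ dd) F hmul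
  obtain ⟨W, hW'⟩ : ∃ W, W = ∏ t, g t z := ⟨_, rfl⟩
  have hWne : W ≠ 0 := by
    rw [hW']
    exact Finset.prod_ne_zero_iff.2 fun t _ => (map_ne_zero_iff _ (g t).injective).2 hzne
  have hdet' : pz Z F.det = W ^ dd := by
    rw [hdet, hW', ← Finset.prod_pow]
    exact Finset.prod_congr rfl fun t _ => map_pow _ _ _
  have hdetne : F.det ≠ 0 := by
    intro h1
    rw [h1, pz_eq, map_zero] at hdet'
    exact pow_ne_zero _ hWne hdet'.symm
  have hΘ : (∏ i, φ i z) ^ dd = ∏ i, φ i (z ^ dd) := by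
    rw [← Finset.prod_pow]
    exact Finset.prod_congr rfl fun t _ => (map_pow _ _ _).symm
  have hfix : ∀ σ : N ≃ₐ[k₀] N, (∀ i, σ (η i) = η i) → σ (∏ i, φ i z) = ∏ i, φ i z := by
    intro σ hσ
    obtain ⟨y, hy⟩ := Pool.Agent.N70.AW.EPc.exists_x0 D η hη Pool.Agent.Y203.J.t_gen
      Pool.Agent.Y203.J.t_iso Y (σ.restrictScalars K) hσ
    exact norm_fix β θ hzP (σ : N →+* N) hy (hcon σ y hσ hy)
  obtain ⟨h, hh1, hh2⟩ := EQ.kd K Z N ι P m k d κ v x e es S M L D hm k₀ η hη r φ Y (z ^ dd) F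
    (∏ i, φ i z) dd hmul hdetne hdd hΘ hfix
  obtain ⟨h', hh1', hh2'⟩ := N946.EQ.t_de K k₀ F.det h dd hdetne hdd hh1 hh2
  have hWfix := fixed_of_pow hreg hdd hh1'.ne_zero F.det.leadingCoeff hh2' hdet'
  obtain ⟨γ, hγ1, hγ2⟩ := hW
  have h1 := trn_prod' β θ hzP g γ hγ1
  rw [← hW', hWfix γ] at h1
  have h2 : algebraMap K Z ((∏ t, θ (β ⟨(g t)⁻¹ * γ * g t, hγ1 (g t)⟩) : Kˣ) : K) = 1 := by
    have h3 : (algebraMap K Z ((∏ t, θ (β ⟨(g t)⁻¹ * γ * g t, hγ1 (g t)⟩) : Kˣ) : K) - 1) * W =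
        0 := by rw [sub_mul, one_mul, ← h1, sub_self]
    rcases mul_eq_zero.1 h3 with h4 | h4
    · exact sub_eq_zero.1 h4
    · exact absurd h4 hWne
  apply hγ2
  apply Units.ext
  apply (algebraMap K Z).injective
  rw [h2, Units.val_one, map_one]

end Pool.Agent.N70.EO
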