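import Mathlib
import Pool.Agent.N70.EQ.Core
import Pool.Agent.N70.EP.Main
import Pool.Agent.N70.EO.Sh
import Pool.Agent.N70.EO.Sg
import Pool.Agent.N70.EO.FinY

/-!
Assembly, odd `m`.
-/

set_option autoImplicit false
set_option linter.unusedSectionVars false
set_option linter.unusedSimpArgs false

namespace Pool.Agent.N70.EO

open Polynomial Pool.Agent.H391R2 Pool.Agent.H391R2.T4 Pool.Agent.N70.AW.EPc
open Pool.Agent.N70.AW (St_small St_hens St_val pz)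
open Pool.Agent.N70.AW renaming Ix → Jx
open Pool.Agent.Y793 (St_gen St_iso St_ext St_grp St_starL Rl AWr exists_trb lift_ker ker_restrict
  exists_ratL mpL AltTw twProj)
open Pool.Agent.N70.EP (SgnIndex Dt0 St_datT exists_rho)
open Pool.Agent.N70.EQ (St_gs St_gc)

theorem enough_roots {L L₁ : Type} [Field L] [Field L₁] [Algebra L L₁] (e : ℕ) [NeZero e]
    (h : HasEnoughRootsOfUnity L e) : HasEnoughRootsOfUnity L₁ e := by
  obtain ⟨ζ, hζ⟩ := h.prim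
  exact ⟨⟨_, hζ.map_of_injective (algebraMap L L₁).injective⟩, inferInstance⟩

theorem coreY (hev : St_ev) (hgen : St_gen) (hiso : St_iso) (hext : St_ext) (hgs : St_gs)
    (hgc : St_gc) (hstarL : St_starL) (hdat : St_datT) (hsm : St_small) (hhens : St_hens)
    (hval : St_val)
    {K L K₁ L₁ Z : Type} [Field K] [CharZero K] [Field L] [Algebra K L]
    [FiniteDimensional K L] [IsGalois K L] [Field K₁] [Algebra K K₁] [Field L₁] [Algebra K₁ L₁]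
    [Algebra K L₁] [IsScalarTower K K₁ L₁] [Algebra L L₁] [IsScalarTower K L L₁]
    [FiniteDimensional K₁ L₁] [IsGalois K₁ L₁]
    [Field Z] [Algebra (RatFunc K₁) Z] [Algebra L₁ Z] [Algebra K₁ Z]
    [IsScalarTower K₁ (RatFunc K₁) Z] [IsScalarTower K₁ L₁ Z] [FiniteDimensional (RatFunc K₁) Z]
    [IsGalois (RatFunc K₁) Z]
    (res : (L₁ ≃ₐ[K₁] L₁) →* (L ≃ₐ[K] L))
    (hres : ∀ (h : L₁ ≃ₐ[K₁] L₁) (b : L), h (algebraMap L L₁ b) = algebraMap L L₁ (res h b))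
    (y : K₁) (hy : Transcendental K y) (hy2 : IntermediateField.adjoin K {y} = ⊤)
    (ϖ : L₁) (hϖ : ϖ ^ 2 = algebraMap K₁ L₁ y)
    (π : (Z ≃ₐ[RatFunc K₁] Z) →* (L₁ ≃ₐ[K₁] L₁))
    (hπ : ∀ (σ : Z ≃ₐ[RatFunc K₁] Z) (x : L₁), σ (algebraMap L₁ Z x) = algebraMap L₁ Z (π σ x))
    (hreg : ∀ y : Z, IsAlgebraic L₁ y → y ∈ Set.range (algebraMap L₁ Z))
    (P : Subgroup (Z ≃ₐ[RatFunc K₁] Z)) (m : ℕ) (hPπ : P.map π = ⊤) (hm : Odd m)
    (χ : (L ≃ₐ[K] L) →* ℤˣ) (ψ : (L₁ ≃ₐ[K₁] L₁) →* ℤˣ)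
    (hψ : ∀ h : L₁ ≃ₐ[K₁] L₁, h ϖ = ((ψ h : ℤˣ) : ℤ) • ϖ)
    (hidx : SgnIndex (Z ≃ₐ[RatFunc K₁] Z) P m ((χ.comp res * ψ).comp π))
    {B : Type} [Group B] [Finite B] (β : P →* B) (hβ : Function.Surjective β)
    (a : B →* (L ≃ₐ[K] L)) (ha : ∀ p : P, a (β p) = res (π p))
    (u : ℕ) (hu : Nat.Coprime u (Nat.card a.ker)) (htrn : TrnU π P β a m u)
    (hroots : HasEnoughRootsOfUnity L (Nat.card a.ker)) :
    ∃ k₀ : ℕ, ∀ k ≥ k₀, RegSol K L (AltTw a χ (m * (2 * k + 1)))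
      (twProj a χ (m * (2 * k + 1))) := by
  classical
  have hcK₁ : CharZero K₁ := charZero_of_injective_algebraMap (algebraMap K K₁).injective
  have hcL₁ : CharZero L₁ := charZero_of_injective_algebraMap (algebraMap K₁ L₁).injective
  have hm0 : 0 < m := hm.pos
  obtain ⟨iKL, iLZ, t1, t2, hfd, hgal, hp⟩ := exists_ratL (K := K₁) (L := L₁) (F := Z)
  obtain ⟨ρ, δ, hρ0, hδ, hρ⟩ := exists_rho K₁ L₁ (χ.comp res * ψ)
  obtain ⟨g, hg, -⟩ := id hidx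
  obtain ⟨k₂, hk₂⟩ := hdat K₁ L₁ Z π hπ hreg P m (χ.comp res * ψ) hPπ hidx ρ δ hρ0 hδ hρ
  obtain ⟨t₀, hstar⟩ := hstarL K₁ L₁ Z
  -- coset representatives over `L₁`
  have hgL : ∃ gL : Fin m → (Z ≃ₐ[RatFunc L₁] Z),
      Function.Bijective (fun t => (gL t : (Z ≃ₐ[RatFunc L₁] Z) ⧸ PL K₁ L₁ P)) ∧
      Function.Bijective (fun t => ((gL t).restrictScalars (RatFunc K₁) :
        (Z ≃ₐ[RatFunc K₁] Z) ⧸ P)) := by
    have h1 : ∀ t, ∃ γ' : Z ≃ₐ[RatFunc L₁] Z, ∃ p ∈ P, ∀ z, γ' z = (g t * p⁻¹) z := by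
      intro t
      have h2 : π (g t) ∈ P.map π := by
        rw [hPπ]
        exact Subgroup.mem_top _
      obtain ⟨p, hp1, hp2⟩ := Subgroup.mem_map.1 h2
      obtain ⟨γ', hγ'⟩ := lift_ker hp π hπ (g t * p⁻¹) (by
        rw [map_mul, map_inv, hp2, mul_inv_cancel])
      exact ⟨γ', p, hp1, hγ'⟩
    choose gL p hpP hgL using h1
    have h4 : ∀ t, (gL t).restrictScalars (RatFunc K₁) = g t * (p t)⁻¹ := fun t =>
      AlgEquiv.ext (hgL t)
    have h40 : ∀ t, ((gL t).restrictScalars (RatFunc K₁) : (Z ≃ₐ[RatFunc K₁] Z) ⧸ P) = g t := by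
      intro t
      rw [h4, QuotientGroup.eq]
      have h5 : (g t * (p t)⁻¹)⁻¹ * g t = p t := by group
      rw [h5]
      exact hpP t
    refine ⟨gL, ⟨fun t t' htt => hg.1 ?_, fun c => ?_⟩, ?_⟩
    · have h2 : (gL t)⁻¹ * gL t' ∈ PL K₁ L₁ P := QuotientGroup.eq.1 htt
      have h5 : ((gL t).restrictScalars (RatFunc K₁))⁻¹ *
          (gL t').restrictScalars (RatFunc K₁) ∈ P := h2
      have h6 : ((gL t).restrictScalars (RatFunc K₁) : (Z ≃ₐ[RatFunc K₁] Z) ⧸ P) =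
          (gL t').restrictScalars (RatFunc K₁) := QuotientGroup.eq.2 h5
      rw [h40, h40] at h6
      exact h6
    · obtain ⟨c, rfl⟩ := QuotientGroup.mk_surjective c
      obtain ⟨t, ht⟩ := hg.2 (c.restrictScalars (RatFunc K₁) : (Z ≃ₐ[RatFunc K₁] Z) ⧸ P)
      refine ⟨t, QuotientGroup.eq.2 ?_⟩
      have h5 : ((gL t).restrictScalars (RatFunc K₁) : (Z ≃ₐ[RatFunc K₁] Z) ⧸ P) =
          c.restrictScalars (RatFunc K₁) := by
        rw [h40]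
        exact ht
      have h6 : ((gL t).restrictScalars (RatFunc K₁))⁻¹ * c.restrictScalars (RatFunc K₁) ∈ P :=
        QuotientGroup.eq.1 h5
      exact h6
    · have h5 : (fun t => ((gL t).restrictScalars (RatFunc K₁) : (Z ≃ₐ[RatFunc K₁] Z) ⧸ P)) =
          fun t => (g t : (Z ≃ₐ[RatFunc K₁] Z) ⧸ P) := funext h40
      rw [h5]
      exact hg
  obtain ⟨gL, hgL, hgL2⟩ := hgL
  obtain ⟨n₀, hn₀⟩ := hgs a.ker
  refine ⟨k₂ + 2 + n₀ + 8 * m + 1, fun k hk => ?_⟩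
  obtain ⟨k, rfl⟩ : ∃ k', k = k' + 2 := ⟨k - 2, by omega⟩
  obtain ⟨p, d, κ, v, x, e, es, S, q, M, M', hdet, hq, D, hdeg, D₁⟩ := hk₂ k (by omega)
  have DL := Dt0_bc hp D
  have D₁L := Dt0_bc hp D₁
  have hdegL : (mpL K₁ L₁ (κ (some none))).natDegree = k + 2 := by
    rw [mpL, natDegree_map, hdeg]
  let k₁ := AlgebraicClosure K₁
  let jL : L₁ →ₐ[K₁] k₁ := IsAlgClosed.lift
  let iL : Algebra L₁ k₁ := jL.toRingHom.toAlgebra
  have tKL : IsScalarTower K₁ L₁ k₁ := .of_algebraMap_eq fun x => (jL.commutes x).symm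
  obtain ⟨N, i1, i2, i3, η, hη⟩ := exists_trb k₁ (Jx (Option (Fin p)))
  let i4 : Algebra K₁ N := ((algebraMap k₁ N).comp (algebraMap K₁ k₁)).toAlgebra
  let i4L : Algebra L₁ N := ((algebraMap k₁ N).comp (algebraMap L₁ k₁)).toAlgebra
  have i5 : IsScalarTower K₁ k₁ N := .of_algebraMap_eq fun _ => rfl
  have i5L : IsScalarTower L₁ k₁ N := .of_algebraMap_eq fun _ => rfl
  have i6 : IsScalarTower K₁ L₁ N := .of_algebraMap_eq fun x => by
    rw [IsScalarTower.algebraMap_apply K₁ k₁ N, IsScalarTower.algebraMap_apply K₁ L₁ k₁,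
      ← IsScalarTower.algebraMap_apply L₁ k₁ N]
  obtain ⟨r, φ, Y⟩ := exists_sy DL η hη hgen hiso gL hgL.1
  have YK := Sy_bc hp Y
  have hsmall := exists_small DL D₁L hdegL η hη hgen hiso hhens hval hm0 gL hgL.1 Y.inj Y.root
  have hn1 : 1 * (2 * (k + 2) + 1) ≤ m * (2 * (k + 2) + 1) := Nat.mul_le_mul_right _ hm0
  have hn2 : n₀ ≤ m * (2 * (k + 2) + 1) := by omega
  have hn3 : 4 * m * (4 * m) < m * (2 * (k + 2) + 1) := by
    have h1 : 4 * m * (4 * m) = m * (16 * m) := by ring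
    rw [h1]
    exact Nat.mul_lt_mul_of_pos_left (by omega) hm0
  -- the labels over `L₁`
  have hβL : ∃ βL : PL K₁ L₁ P →* a.ker,
      ∀ γ : PL K₁ L₁ P, ((βL γ : a.ker) : B) =
        β ⟨(γ : Z ≃ₐ[RatFunc L₁] Z).restrictScalars (RatFunc K₁), γ.2⟩ := by
    refine ⟨MonoidHom.mk' (fun γ => ⟨β ⟨(γ : Z ≃ₐ[RatFunc L₁] Z).restrictScalars (RatFunc K₁),
      γ.2⟩, ?_⟩) ?_, fun γ => rfl⟩
    · rw [MonoidHom.mem_ker, ha]
      have h1 : π ((γ : Z ≃ₐ[RatFunc L₁] Z).restrictScalars (RatFunc K₁)) = 1 :=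
        ker_restrict π hπ _
      change res (π ((γ : Z ≃ₐ[RatFunc L₁] Z).restrictScalars (RatFunc K₁))) = 1
      rw [h1, map_one]
    · intro γ γ'
      apply Subtype.ext
      change β _ = β _ * β _
      rw [← map_mul]
      rfl
  obtain ⟨βL, hβL2⟩ := hβL
  -- lifting the elements of `TrnU`
  have hlift : ∀ ν : B, a ν = 1 → ∃ (γ' : Z ≃ₐ[RatFunc L₁] Z)
      (h3 : ∀ c : Z ≃ₐ[RatFunc L₁] Z, c⁻¹ * γ' * c ∈ PL K₁ L₁ P),
      (∀ p : γ' ∈ PL K₁ L₁ P, ((βL ⟨γ', p⟩ : a.ker) : B) = ν) ∧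
      ∀ (A : Type) [CommGroup A] (θ : B → A),
        (∀ b c, a b = 1 → a c = 1 → θ (b * c) = θ b * θ c) →
        ∏ t, θ ((βL ⟨(gL t)⁻¹ * γ' * gL t, h3 (gL t)⟩ : a.ker) : B) = θ ν ^ u := by
    intro ν hν
    obtain ⟨γ, h, hγ1, hγ2, hγ3⟩ := htrn ν hν
    obtain ⟨γ', hγ'⟩ := lift_ker hp π hπ γ hγ1
    have h1 : γ'.restrictScalars (RatFunc K₁) = γ := AlgEquiv.ext hγ'
    have h2 : ∀ c : Z ≃ₐ[RatFunc L₁] Z, (c⁻¹ * γ' * c).restrictScalars (RatFunc K₁) =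
        (c.restrictScalars (RatFunc K₁))⁻¹ * γ * c.restrictScalars (RatFunc K₁) := by
      intro c
      rw [← h1]
      rfl
    have h3 : ∀ c : Z ≃ₐ[RatFunc L₁] Z, c⁻¹ * γ' * c ∈ PL K₁ L₁ P := by
      intro c
      change (c⁻¹ * γ' * c).restrictScalars (RatFunc K₁) ∈ P
      rw [h2]
      exact h _
    refine ⟨γ', h3, fun p => ?_, fun A _ θ hθ => ?_⟩
    · rw [hβL2]
      have h5 : γ ∈ P := by
        rw [← h1]
        exact p
      refine Eq.trans ?_ (hγ2 h5)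
      congr 1
      exact Subtype.ext h1
    · refine Eq.trans ?_ (hγ3 (fun t => (gL t).restrictScalars (RatFunc K₁))
        (fun t => ker_restrict π hπ _) hgL2 A θ hθ)
      refine Finset.prod_congr rfl fun t _ => ?_
      rw [hβL2]
      congr 2
      exact Subtype.ext (h2 _)
  have hβL1 : Function.Surjective βL := by
    rintro ⟨ν, hν⟩
    obtain ⟨γ', h3, h4, -⟩ := hlift ν hν
    have h5 : γ' ∈ PL K₁ L₁ P := by
      have := h3 1
      rwa [inv_one, one_mul, mul_one] at this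
    exact ⟨⟨γ', h5⟩, Subtype.ext (h4 h5)⟩
  have hcard : NeZero (Nat.card a.ker) := ⟨Nat.card_pos.ne'⟩
  have hroots₁ : HasEnoughRootsOfUnity L₁ (Nat.card a.ker) := enough_roots _ hroots
  have hW : ∀ θ : a.ker →* L₁ˣ, θ ≠ 1 →
      ∃ (γ : Z ≃ₐ[RatFunc L₁] Z) (h : ∀ c : Z ≃ₐ[RatFunc L₁] Z, c⁻¹ * γ * c ∈ PL K₁ L₁ P),
        ∏ t, θ (βL ⟨(gL t)⁻¹ * γ * gL t, h (gL t)⟩) ≠ 1 := by
    intro θ hθ
    obtain ⟨ν, hν⟩ : ∃ ν, θ ν ≠ 1 := by
      by_contra h1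
      push Not at h1
      exact hθ (MonoidHom.ext h1)
    obtain ⟨γ', h3, -, h4⟩ := hlift ν ν.2
    refine ⟨γ', h3, fun h5 => hν ?_⟩
    let θ' : B → L₁ˣ := fun b => if hb : b ∈ a.ker then θ ⟨b, hb⟩ else 1
    have hθ' : ∀ b : a.ker, θ' b = θ b := fun b => by
      change (if hb : (b : B) ∈ a.ker then θ ⟨b, hb⟩ else 1) = _
      rw [dif_pos b.2]
    have h6 := h4 L₁ˣ θ' (fun b c hb hc => by
      have h7 := hθ' (⟨b, hb⟩ * ⟨c, hc⟩)
      have h8 := hθ' ⟨b, hb⟩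
      have h9 := hθ' ⟨c, hc⟩
      rw [map_mul, ← h8, ← h9] at h7
      exact h7)
    have h10 : ∏ t, θ' ((βL ⟨(gL t)⁻¹ * γ' * gL t, h3 (gL t)⟩ : a.ker) : B) =
        ∏ t, θ (βL ⟨(gL t)⁻¹ * γ' * gL t, h3 (gL t)⟩) :=
      Finset.prod_congr rfl fun t _ => hθ' _
    rw [h10, h5, hθ'] at h6
    -- `θ ν ^ u = 1` and `θ ν ^ |ker a| = 1`
    have h11 : θ ν ^ Nat.card a.ker = 1 := by
      rw [← map_pow, pow_card_eq_one', map_one]
    have h12 : orderOf (θ ν) ∣ u := orderOf_dvd_of_pow_eq_one h6.symm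
    have h13 : orderOf (θ ν) ∣ Nat.card a.ker := orderOf_dvd_of_pow_eq_one h11
    have h14 : orderOf (θ ν) ∣ 1 := by
      rw [← hu]
      exact Nat.dvd_gcd h12 h13
    exact orderOf_eq_one_iff.1 (Nat.dvd_one.1 h14)
  -- the square root of `E`
  set E : ℤ := ((Equiv.Perm.sign (Fin.revPerm : Equiv.Perm (Fin (2 * (k + 2) + 1))) : ℤˣ) : ℤ) *
    ((2 * (k + 2) + 1 : ℕ) : ℤ) with hE
  have hE0 : E ≠ 0 := mul_ne_zero (Units.ne_zero _) (by positivity)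
  obtain ⟨w, hw⟩ := IsAlgClosed.exists_pow_nat_eq (algebraMap K k₁ (E : K)) (n := 2) two_pos
  have hwN : (algebraMap k₁ N w) ^ 2 =
      (((Equiv.Perm.sign (Fin.revPerm : Equiv.Perm (Fin (2 * (k + 2) + 1))) : ℤˣ) : ℤ) : N) *
        ((2 * (k + 2) + 1 : ℕ) : N) := by
    rw [← map_pow, hw, map_intCast, map_intCast, hE, Int.cast_mul, Int.cast_natCast]
  have hcN : CharZero N := charZero_of_injective_algebraMap (algebraMap K₁ N).injective
  have hρN : (algebraMap L₁ N ρ) ≠ 0 := by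
    rw [Ne, FaithfulSMul.algebraMap_eq_zero_iff]
    exact hρ0
  have hρN2 : (algebraMap L₁ N ρ) ^ 2 = algebraMap K₁ N δ := by
    rw [← map_pow, ← hδ, ← IsScalarTower.algebraMap_apply]
  have hsgn : ∀ σ : N ≃ₐ[k₁] N, (∀ i, σ (η i) = η i) →
      ∀ y : Wr (PL K₁ L₁ P) (m * (2 * (k + 2) + 1)), Rl r φ σ y →
        Equiv.Perm.sign y.right = 1 := by
    intro σ hσ y hy
    obtain ⟨y₀, hy1, hy2⟩ := exists_xO D η hη hev hgen hiso hm hdet hq hρN hρN2 hwN YK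
      (σ.restrictScalars K₁) hσ 1 1
      (by
        rw [Units.val_one, Int.cast_one, one_mul]
        change σ (algebraMap L₁ N ρ) = _
        rw [IsScalarTower.algebraMap_apply L₁ k₁ N, σ.commutes])
      (by
        rw [Units.val_one, Int.cast_one, one_mul]
        change σ (algebraMap k₁ N w) = _
        rw [σ.commutes])
    have h1 : y.right = y₀.right := by
      apply Equiv.ext
      intro i
      apply Y.inj
      rw [← (hy i).1]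
      exact (hy2 i).1
    rw [h1, hy1, mul_one]
  have halgL : Algebra.IsAlgebraic L₁ k₁ := Algebra.IsAlgebraic.tower_top (K := K₁) L₁
  have hgeo := geoW DL η hη hgen hiso hext hgc hsm hm0 hreg (algebraMap K₁ L₁ t₀) hstar gL hgL
    Y (hn₀ _ hn2) βL hβL1 hW hsgn (4 * m) hn3 hsmall
  refine finY (Jx (Option (Fin p))) η hη res hres y hy hy2 ϖ hϖ (E : K) w
    (by exact_mod_cast hE0) hw π hπ P _ χ ψ hψ β hβ a ha r Y.inj φ ?_ ?_
  · intro σ hσ ε' hε' h hh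
    obtain ⟨y, hy1, hy2⟩ := exists_xO D η hη hev hgen hiso hm hdet hq hρN hρN2 hwN YK σ hσ
      ((χ.comp res * ψ) h) ε' (by
        rw [hh, hρ, zsmul_eq_mul, map_mul, map_intCast]) hε'
    exact ⟨y, hy1, hy2⟩
  · intro z hz
    obtain ⟨σ, y', h1, h2, h3, h4⟩ := hgeo z hz
    refine ⟨σ, ⟨fun j => ⟨(y'.left j : Z ≃ₐ[RatFunc L₁] Z).restrictScalars (RatFunc K₁),
      (y'.left j).2⟩, y'.right⟩, h1, fun i => ⟨(h2 i).1, fun c => (h2 i).2 c⟩, h3, fun j => ?_⟩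
    rw [← h4, hβL2]

end Pool.Agent.N70.EO
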