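import Mathlib
import Pool.Agent.N70.EQ.Main
import Pool.Agent.N70.EO.CoreY
import Pool.Agent.N70.EP.RealB

/-!
The main theorem for odd degrees.
-/

set_option autoImplicit false
set_option linter.unusedSectionVars false
set_option linter.unusedSimpArgs false

namespace Pool.Agent.N70.EO

open Polynomial Pool.Agent.H391R2 Pool.Agent.H391R2.T4
open Pool.Agent.Y793 (AltTw twProj)
open Pool.Agent.N70.EP (SgnIndex exists_rho sgnIndex_comap datT step_rsk)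
open Pool.Agent.N600.NS (IdxDvd Degs)
open Pool.Agent.N70.EQ (FPk fpk fpk_surj card_ker_fpk)

/-- The hypotheses. -/
structure HypO : Prop where
  base : EQ.Hyp
  ev : St_ev
  gx : St_gx
  ly : St_ly
  dy : St_dy
  dn : St_dn

theorem exists_psi {K₁ L₁ : Type} [Field K₁] [CharZero K₁] [Field L₁] [Algebra K₁ L₁] (y : K₁)
    (ϖ : L₁) (hϖ0 : ϖ ≠ 0) (hϖ : ϖ ^ 2 = algebraMap K₁ L₁ y) :
    ∃ ψ : (L₁ ≃ₐ[K₁] L₁) →* ℤˣ, ∀ h : L₁ ≃ₐ[K₁] L₁, h ϖ = ((ψ h : ℤˣ) : ℤ) • ϖ := by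
  have hcL₁ : CharZero L₁ := charZero_of_injective_algebraMap (algebraMap K₁ L₁).injective
  have h1 : ∀ h : L₁ ≃ₐ[K₁] L₁, ∃ ε : ℤˣ, h ϖ = ((ε : ℤˣ) : ℤ) • ϖ := by
    intro h
    have hsq : (h ϖ) ^ 2 = ϖ ^ 2 := by
      rw [← map_pow, hϖ, h.commutes]
    rcases sq_eq_sq_iff_eq_or_eq_neg.1 hsq with h1 | h1
    · exact ⟨1, by rw [h1]; simp⟩
    · exact ⟨-1, by rw [h1]; simp⟩
  choose ψ hψ using h1
  have huniq : ∀ ε ε' : ℤˣ, ((ε : ℤˣ) : ℤ) • ϖ = ((ε' : ℤˣ) : ℤ) • ϖ → ε = ε' := by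
    intro ε ε' h
    rw [zsmul_eq_mul, zsmul_eq_mul] at h
    have h2 := mul_right_cancel₀ hϖ0 h
    exact Units.ext (by exact_mod_cast h2)
  refine ⟨MonoidHom.mk' ψ fun h h' => huniq _ _ ?_, hψ⟩
  rw [← hψ]
  change h (h' ϖ) = _
  rw [hψ h', map_zsmul, hψ h, smul_smul, Units.val_mul, mul_comm]

theorem trnU_transport {X X' B Γ Γ' : Type} [Group X] [Group X'] [Group B] [Group Γ] [Group Γ']
    (γ : X' ≃* X) (π : X →* Γ) (P : Subgroup X) (β : P →* B) (a : B →* Γ') (m u : ℕ)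
    (h : TrnU π P β a m u) (P' : Subgroup X') (e : P' →* P)
    (hP' : ∀ x, x ∈ P' ↔ γ x ∈ P) (he : ∀ p : P', (e p : X) = γ p) :
    TrnU (π.comp (γ : X' →* X)) P' (β.comp e) a m u := by
  intro ν hν
  obtain ⟨c, h1, h2, h3, h4⟩ := h ν hν
  have h5 : ∀ g : X', γ (g⁻¹ * γ.symm c * g) = (γ g)⁻¹ * c * γ g := by
    intro g
    rw [map_mul, map_mul, map_inv, MulEquiv.apply_symm_apply]
  refine ⟨γ.symm c, fun g => ?_, ?_, fun p => ?_, fun g hg hg2 A _ θ hθ => ?_⟩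
  · rw [hP', h5]
    exact h1 _
  · change π (γ (γ.symm c)) = 1
    rw [MulEquiv.apply_symm_apply, h2]
  · have h6 : c ∈ P := by
      have h7 := (hP' _).1 p
      rwa [MulEquiv.apply_symm_apply] at h7
    refine Eq.trans ?_ (h3 h6)
    change β (e _) = _
    congr 1
    apply Subtype.ext
    rw [he]
    exact MulEquiv.apply_symm_apply _ _
  · have hbij : Function.Bijective (fun t => (γ (g t) : X ⧸ P)) := by
      constructor
      · intro t t' htt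
        apply hg2.1
        have h6 : (γ (g t))⁻¹ * γ (g t') ∈ P := QuotientGroup.eq.1 htt
        rw [← map_inv, ← map_mul, ← hP'] at h6
        exact QuotientGroup.eq.2 h6
      · intro c'
        obtain ⟨c', rfl⟩ := QuotientGroup.mk_surjective c'
        obtain ⟨t, ht⟩ := hg2.2 ((γ.symm c' : X') : X' ⧸ P')
        refine ⟨t, QuotientGroup.eq.2 ?_⟩
        have h6 : (g t)⁻¹ * γ.symm c' ∈ P' := QuotientGroup.eq.1 ht
        rw [hP', map_mul, map_inv, MulEquiv.apply_symm_apply] at h6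
        exact h6
    refine Eq.trans ?_ (h4 (fun t => γ (g t)) hg hbij A θ hθ)
    refine Finset.prod_congr rfl fun t _ => ?_
    congr 1
    change β (e _) = _
    congr 1
    apply Subtype.ext
    rw [he]
    exact h5 _

/-- Labels in `B` instead of `B ×_Γ Γ₁`. -/
theorem trnU_fst {X B Γ Γ₁ : Type} [Group X] [Group B] [Group Γ] [Group Γ₁]
    (a : B →* Γ) (res : Γ₁ →* Γ) (π : X →* Γ₁) (P : Subgroup X) (β : P →* FPk a res) (m u : ℕ)
    (h : TrnU π P β (fpk a res) m u) :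
    TrnU π P (((MonoidHom.fst B Γ₁).comp (FPk a res).subtype).comp β) a m u := by
  intro ν hν
  have hν1 : ((ν, 1) : B × Γ₁) ∈ FPk a res := by
    change a ν = res 1
    rw [hν, map_one]
  obtain ⟨γ, h1, h2, h3, h4⟩ := h ⟨(ν, 1), hν1⟩ rfl
  refine ⟨γ, h1, h2, fun p => ?_, fun g hg hg2 A _ θ hθ => ?_⟩
  · change (β ⟨γ, p⟩).1.1 = ν
    rw [h3 p]
  · refine Eq.trans ?_ (h4 g hg hg2 A (fun b => θ b.1.1) fun b c hb hc => ?_)
    · rfl
    · have hb1 : a b.1.1 = res b.1.2 := b.2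
      have hb2 : b.1.2 = 1 := hb
      have hc1 : a c.1.1 = res c.1.2 := c.2
      have hc2 : c.1.2 = 1 := hc
      rw [hb2, map_one] at hb1
      rw [hc2, map_one] at hc1
      exact hθ _ _ hb1 hc1

section main

variable (K L : Type) [Field K] [CharZero K] [Field L] [Algebra K L]
    [FiniteDimensional K L] [IsGalois K L] {B : Type} [Group B] [Finite B]
    (a : B →* (L ≃ₐ[K] L))

/-- All embedding problems, if there are enough roots of unity in `L`. -/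
theorem t8r (hh : HypO) (ha : Function.Surjective a)
    (hroots : HasEnoughRootsOfUnity L (Nat.card a.ker)) (u : ℕ) (hu3 : u % 4 = 3)
    (hu : Nat.Coprime u (Nat.card a.ker)) :
    ∃ r₀ : ℕ, ∀ r ≥ r₀, Odd r → IdxDvd K L B a r → ∃ k₀ : ℕ, ∀ k ≥ k₀,
      ∀ χ : (L ≃ₐ[K] L) →* ℤˣ,
        RegSol K L (AltTw a χ (u * r * (2 * k + 1))) (twProj a χ (u * r * (2 * k + 1))) := by
  have hfin := EP.finite_hom (L ≃ₐ[K] L)
  obtain ⟨L₁, i1, i2, i3, i4, i5, i6, i7, i8, res, ϖ, hress, hres, hϖ⟩ := hh.ly K L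
  have hcK₁ : CharZero (RatFunc K) := charZero_of_injective_algebraMap
    (algebraMap K (RatFunc K)).injective
  have hϖ0 : ϖ ≠ 0 := by
    rintro rfl
    rw [zero_pow two_ne_zero] at hϖ
    exact RatFunc.X_ne_zero ((algebraMap (RatFunc K) L₁).injective (by rw [← hϖ, map_zero]))
  obtain ⟨ψ, hψ⟩ := exists_psi _ ϖ hϖ0 hϖ
  have hfB : Finite (FPk a res) := Finite.of_injective Subtype.val Subtype.val_injective
  have ha₁ := fpk_surj a res ha
  obtain ⟨r₁, hr₁⟩ := N600.NS.reg_index (RatFunc K) L₁ _ (fpk a res) ha₁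
  refine ⟨r₁, fun r hr hodd hidx => ?_⟩
  have hreg := (hr₁ r hr (fun d hd => hidx d fun m hm =>
    hd m (hh.dy K L L₁ res hres B a m hm))).2
  have h1 : ∀ χ : (L ≃ₐ[K] L) →* ℤˣ, ∃ k₀ : ℕ, ∀ k ≥ k₀,
      RegSol K L (AltTw a χ (u * r * (2 * k + 1))) (twProj a χ (u * r * (2 * k + 1))) := by
    intro χ
    obtain ⟨X, j1, j2, ξ, s, P, β₁, hs, hcomm, hβ₁, hβ₂, hsg, htr⟩ :=
      hh.gx (L₁ ≃ₐ[RatFunc K] L₁) (FPk a res) (fpk a res) ha₁ (χ.comp res * ψ) u r hu3 hodd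
    have hker : Finite ξ.ker := Finite.of_injective Subtype.val Subtype.val_injective
    have hX : RegSol (RatFunc K) L₁ X ((symProj (fpk a res) r).comp ξ) :=
      step_rsk _ ξ (TH444.TW.Cls.abelian (K := ℚ) ξ s hs hker hcomm).rsk
        (symProj (fpk a res) r) (fun _ => rfl) hreg
    obtain ⟨Z, l1, l2, l3, l4, l5, l6, l7, l8, γ, hγ, hregZ⟩ := hX
    let π' : (Z ≃ₐ[RatFunc (RatFunc K)] Z) →* (L₁ ≃ₐ[RatFunc K] L₁) :=
      ((symProj (fpk a res) r).comp ξ).comp (γ : (Z ≃ₐ[RatFunc (RatFunc K)] Z) →* X)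
    let P' : Subgroup (Z ≃ₐ[RatFunc (RatFunc K)] Z) :=
      P.comap (γ : (Z ≃ₐ[RatFunc (RatFunc K)] Z) →* X)
    have hmap : P'.map (γ : (Z ≃ₐ[RatFunc (RatFunc K)] Z) →* X) = P :=
      Subgroup.map_comap_eq_self_of_surjective γ.surjective P
    let e : P' ≃* P := (γ.subgroupMap P').trans (MulEquiv.subgroupCongr hmap)
    have he : ∀ p : P', ((e p : P) : X) = γ p := fun p => rfl
    have hPtop : P.map ((symProj (fpk a res) r).comp ξ) = ⊤ := by
      rw [Subgroup.eq_top_iff']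
      intro h
      obtain ⟨b, rfl⟩ := ha₁ h
      obtain ⟨p, rfl⟩ := hβ₁ b
      exact Subgroup.mem_map.2 ⟨p, p.2, (hβ₂ p).symm⟩
    have hPπ' : P'.map π' = ⊤ := by
      rw [← Subgroup.map_map, hmap, hPtop]
    have hidx' : SgnIndex (Z ≃ₐ[RatFunc (RatFunc K)] Z) P' (u * r)
        ((χ.comp res * ψ).comp π') := sgnIndex_comap γ P (u * r) _ hsg
    have htr1 := trnU_fst a res ((symProj (fpk a res) r).comp ξ) P β₁ (u * r) u htr
    have htr2 : TrnU π' P' ((((MonoidHom.fst B (L₁ ≃ₐ[RatFunc K] L₁)).comp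
        (FPk a res).subtype).comp β₁).comp (e : P' →* P)) a (u * r) u :=
      trnU_transport γ _ P _ a (u * r) u htr1 P' (e : P' →* P) (fun _ => Iff.rfl) he
    have hβs : Function.Surjective ((((MonoidHom.fst B (L₁ ≃ₐ[RatFunc K] L₁)).comp
        (FPk a res).subtype).comp β₁).comp (e : P' →* P)) := by
      intro b
      obtain ⟨h, hh⟩ := hress (a b)
      obtain ⟨p, hp⟩ := hβ₁ ⟨(b, h), hh.symm⟩
      obtain ⟨p', rfl⟩ := e.surjective p
      refine ⟨p', ?_⟩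
      change (β₁ (e p')).1.1 = b
      rw [hp]
    have haβ : ∀ p : P', a (((((MonoidHom.fst B (L₁ ≃ₐ[RatFunc K] L₁)).comp
        (FPk a res).subtype).comp β₁).comp (e : P' →* P)) p) = res (π' p) := by
      intro p
      have h5 := hβ₂ (e p)
      have h6 : a (β₁ (e p)).1.1 = res (β₁ (e p)).1.2 := (β₁ (e p)).2
      change a (β₁ (e p)).1.1 = _
      rw [h6]
      exact congrArg res h5
    have hum : Odd (u * r) := (Nat.odd_iff.2 (by omega)).mul hodd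
    obtain ⟨k₀, hk₀⟩ := coreY hh.ev Y203.J.t_gen Y203.J.t_iso Y241.WR.t_ext hh.base.gs hh.base.gc
      Y793.starL datT N24.AW.small N400.AW.HENS.t_hens N945.AW.val res hres RatFunc.X
      RatFunc.transcendental_X RatFunc.adjoin_X ϖ hϖ π' hγ hregZ P' (u * r) hPπ' hum χ ψ hψ hidx'
      _ hβs a haβ u hu htr2 hroots
    exact ⟨k₀, hk₀⟩
  choose κ hκ using h1
  obtain ⟨k₂, hk₂⟩ := (Set.finite_range κ).bddAbove
  exact ⟨k₂, fun k hk χ => hκ χ k ((hk₂ ⟨χ, rfl⟩).trans hk)⟩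

/-- All embedding problems. -/
theorem t8 (hh : HypO) (ha : Function.Surjective a) (u : ℕ) (hu3 : u % 4 = 3)
    (hu : Nat.Coprime u (Nat.card a.ker)) :
    ∃ r₀ : ℕ, ∀ r ≥ r₀, Odd r → IdxDvd K L B a r → ∃ k₀ : ℕ, ∀ k ≥ k₀,
      ∀ χ : (L ≃ₐ[K] L) →* ℤˣ,
        RegSol K L (AltTw a χ (u * r * (2 * k + 1))) (twProj a χ (u * r * (2 * k + 1))) := by
  obtain ⟨L', i1, i2, i3, i4, i5, i6, hroots⟩ := hh.base.ru K L (Nat.card a.ker) Nat.card_pos
  have hfin : Finite (FPk a (AlgEquiv.restrictNormalHom (F := K) (K₁ := L') L)) :=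
    inferInstance
  obtain ⟨r₀, hr₀⟩ := t8r K L' (fpk a (AlgEquiv.restrictNormalHom (F := K) (K₁ := L') L)) hh
    (fpk_surj a _ ha) (by rw [card_ker_fpk]; exact hroots) u hu3 (by rw [card_ker_fpk]; exact hu)
  refine ⟨r₀, fun r hr hodd hidx => ?_⟩
  obtain ⟨k₀, hk₀⟩ := hr₀ r hr hodd
    (fun d hd => hidx d fun m hm => hd m (hh.base.ri K L L' B a m hm))
  exact ⟨k₀, fun k hk χ => hh.base.rt K L L' B a χ _ (hk₀ k hk _)⟩

end main

end Pool.Agent.N70.EO
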