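import Mathlib
import Pool.Agent.N70.EQ.TF
import Pool.Agent.N70.EO.Main

/-!
The index theorem and the kernels `G ≀ A_n` for all degrees.
-/

set_option autoImplicit false
set_option linter.unusedSectionVars false
set_option linter.unusedSimpArgs false

namespace Pool.Agent.N70.EO

open Polynomial Pool.Agent.H391R2 Pool.Agent.H391R2.T4
open Pool.Agent.Y793 (AWr AltTw twProj reg_wr regSol_iso)
open Pool.Agent.TH444.TW (RSK)
open Pool.Agent.N600.UK (Out cls cls_eq_one conj_inj)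
open Pool.Agent.N600.NS (IdxDvd Degs)
open Pool.Agent.N70.EP (transfer SplitIdx idx_of_split rsk_tw pB pB_surj FB splitIdx_mul
  splitIdx_pull exists_pull GoodKer0 AlmostAll exists_index weak_tw t_dens exists_splitIdx)
open Pool.Agent.N70.EQ (idx_thm7 idx_thmu7 goodKer_dens7)

open scoped Classical in
/-- All multiples from the even and the odd ones. -/
theorem almostAll_all {D : ℕ} (hD : Odd D) {A : ℕ → Prop} (h1 : AlmostAll (2 * D) A)
    (h2 : ∀ ε : ℝ, 0 < ε → ∃ N : ℕ, ∀ x ≥ N,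
      (((Finset.range x).filter fun n => D ∣ n ∧ Odd n ∧ ¬ A n).card : ℝ) ≤ ε * x) :
    AlmostAll D A := by
  classical
  intro ε hε
  obtain ⟨N₁, hN₁⟩ := h1 (ε / 2) (by positivity)
  obtain ⟨N₂, hN₂⟩ := h2 (ε / 2) (by positivity)
  refine ⟨N₁ + N₂, fun x hx => ?_⟩
  have h3 := hN₁ x (by omega)
  have h4 := hN₂ x (by omega)
  have h5 : ((Finset.range x).filter fun n => D ∣ n ∧ ¬ A n).card ≤
      ((Finset.range x).filter fun n => 2 * D ∣ n ∧ ¬ A n).card +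
      ((Finset.range x).filter fun n => D ∣ n ∧ Odd n ∧ ¬ A n).card := by
    refine (Finset.card_le_card ?_).trans (Finset.card_union_le _ _)
    intro n hn
    rw [Finset.mem_filter] at hn
    rw [Finset.mem_union, Finset.mem_filter, Finset.mem_filter]
    rcases Nat.even_or_odd n with he | ho
    · left
      refine ⟨hn.1, Nat.Coprime.mul_dvd_of_dvd_of_dvd ?_ he.two_dvd hn.2.1, hn.2.2⟩
      exact (Nat.coprime_two_left).2 hD
    · exact Or.inr ⟨hn.1, hn.2.1, ho, hn.2.2⟩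
  have h6 : (((Finset.range x).filter fun n => D ∣ n ∧ ¬ A n).card : ℝ) ≤
      ((Finset.range x).filter fun n => 2 * D ∣ n ∧ ¬ A n).card +
      ((Finset.range x).filter fun n => D ∣ n ∧ Odd n ∧ ¬ A n).card := by
    exact_mod_cast h5
  have h7 : (((Finset.range x).filter fun n => D ∣ n ∧ ¬ A n).card : ℝ) ≤ ε * x := by
    linarith
  refine le_trans (le_of_eq ?_) h7
  congr!

/-- The uniform form. -/
theorem t8u (hh : HypO) (H B : Type) [Group H] [Finite H] [Group B] [Finite B] (a : B →* H)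
    (ha : Function.Surjective a) (u : ℕ) (hu3 : u % 4 = 3)
    (hu : Nat.Coprime u (Nat.card a.ker)) :
    ∃ r₀ : ℕ, ∀ r ≥ r₀, Odd r → SplitIdx a r → ∃ k₀ : ℕ, ∀ k ≥ k₀,
      ∀ χ : H →* ℤˣ, RSK ℚ (twProj a χ (u * r * (2 * k + 1))) := by
  obtain ⟨K₀, L₀, i1, i2, i3, i4, i5, i6, e₀, h⟩ := transfer H
  have hker : (((e₀.symm : H →* (L₀ ≃ₐ[K₀] L₀)).comp a)).ker = a.ker := by
    ext x
    rw [MonoidHom.mem_ker, MonoidHom.mem_ker]
    show e₀.symm (a x) = 1 ↔ a x = 1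
    exact map_eq_one_iff e₀.symm e₀.symm.injective
  obtain ⟨r₀, hr₀⟩ := t8 K₀ L₀ ((e₀.symm : H →* (L₀ ≃ₐ[K₀] L₀)).comp a) hh
    (e₀.symm.surjective.comp ha) u hu3 (by rw [hker]; exact hu)
  refine ⟨r₀, fun r hr hodd hidx => ?_⟩
  obtain ⟨k₀, hk₀⟩ := hr₀ r hr hodd (idx_of_split a hidx e₀)
  exact ⟨k₀, fun k hk χ => rsk_tw a χ _ e₀ h (hk₀ k hk (χ.comp (e₀ : (L₀ ≃ₐ[K₀] L₀) →* H)))⟩

section ker

variable (G : Type) [Group G] [Finite G]

theorem card_ker_pB {Γ : Type} [Group Γ] (o : Γ →* Out G) :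
    Nat.card (pB o).ker ∣ Nat.card (MulAut G) := by
  let f : (pB o).ker →* MulAut G :=
    ((MonoidHom.fst (MulAut G) Γ).comp (FB o).subtype).comp (pB o).ker.subtype
  refine Subgroup.card_dvd_of_injective f ?_
  intro z w hzw
  apply Subtype.ext
  apply Subtype.ext
  have h1 : z.1.1.2 = 1 := z.2
  have h2 : w.1.1.2 = 1 := w.2
  exact Prod.ext hzw (h1.trans h2.symm)

theorem rsk_ker8 (hh : HypO)
    (u : ℕ) (hu3 : u % 4 = 3) (hu : Nat.Coprime u (Nat.card (MulAut G))) :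
    ∃ r₀ : ℕ, ∀ r ≥ r₀, Odd r → SplitIdx (cls G) r → ∃ k₀ : ℕ, ∀ k ≥ k₀,
      ∀ (Γ : Type) [Group Γ] [Finite Γ] (o : Γ →* Out G) (χ : Γ →* ℤˣ),
      RSK ℚ (twProj (pB o) χ (u * r * (2 * k + 1))) := by
  have hfin : Finite (MulAut G) := Finite.of_injective (fun a : MulAut G => (a : G → G))
    DFunLike.coe_injective
  have hfinO : Finite (Out G) := inferInstance
  have hfS : Finite (Subgroup (Out G × ℤˣ)) := inferInstance
  have h0 : ∀ W : Subgroup (Out G × ℤˣ), ∃ r₀ : ℕ, ∀ r ≥ r₀, Odd r →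
      SplitIdx (pB ((MonoidHom.fst (Out G) ℤˣ).comp W.subtype)) r → ∃ k₀ : ℕ, ∀ k ≥ k₀,
      ∀ χ : W →* ℤˣ, RSK ℚ (twProj
        (pB ((MonoidHom.fst (Out G) ℤˣ).comp W.subtype)) χ (u * r * (2 * k + 1))) := by
    intro W
    exact t8u hh W _ (pB ((MonoidHom.fst (Out G) ℤˣ).comp W.subtype)) (pB_surj _) u hu3
      (hu.coprime_dvd_right (card_ker_pB G _))
  choose ρ hρ using h0
  obtain ⟨r₀, hr₀⟩ := (Set.finite_range ρ).bddAbove
  refine ⟨r₀, fun r hr hodd hidx => ?_⟩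
  have h1 : ∀ W : Subgroup (Out G × ℤˣ), ∃ k₀ : ℕ, ∀ k ≥ k₀,
      ∀ χ : W →* ℤˣ, RSK ℚ (twProj
        (pB ((MonoidHom.fst (Out G) ℤˣ).comp W.subtype)) χ (u * r * (2 * k + 1))) :=
    fun W => hρ W r ((hr₀ ⟨W, rfl⟩).trans hr) hodd (splitIdx_pull G _ hidx)
  choose κ hκ using h1
  obtain ⟨k₀, hk₀⟩ := (Set.finite_range κ).bddAbove
  refine ⟨k₀, fun k hk Γ _ _ o χ => ?_⟩
  let W : Subgroup (Out G × ℤˣ) := (o.prod χ).range
  let π : Γ →* W := (o.prod χ).rangeRestrict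
  have h2 := hκ W k ((hk₀ ⟨W, rfl⟩).trans hk) ((MonoidHom.snd (Out G) ℤˣ).comp W.subtype)
  have hW : Finite (Wr (FB ((MonoidHom.fst (Out G) ℤˣ).comp W.subtype)) (u * r * (2 * k + 1))) :=
    finite_wr _ _
  have h3 := N75.EP.t_pul ℚ W _ Γ (twProj (pB ((MonoidHom.fst (Out G) ℤˣ).comp W.subtype))
        ((MonoidHom.snd (Out G) ℤˣ).comp W.subtype) (u * r * (2 * k + 1))) π
        (MonoidHom.rangeRestrict_surjective _) h2
  obtain ⟨e, he⟩ := exists_pull ((MonoidHom.fst (Out G) ℤˣ).comp W.subtype) π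
    ((MonoidHom.snd (Out G) ℤˣ).comp W.subtype) (u * r * (2 * k + 1))
  exact RSK.congr h3 e he

/-- The groups `G ≀ A_n` are kernels of regularly solvable embedding problems only. -/
theorem goodKer8 (hh : HypO) [Nontrivial G] (hZ : ∀ z : G, (∀ g : G, z * g = g * z) → z = 1)
    (u : ℕ) (hu3 : u % 4 = 3) (hu : Nat.Coprime u (Nat.card (MulAut G))) :
    ∃ r₀ : ℕ, ∀ r ≥ r₀, Odd r → SplitIdx (cls G) r → ∃ k₀ : ℕ, ∀ k ≥ k₀,
      GoodKer0 (AWr G (u * r * (2 * k + 1))) := by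
  obtain ⟨r₀, hr₀⟩ := rsk_ker8 G hh u hu3 hu
  refine ⟨r₀ + 2 * (Nat.card G + 4), fun r hr hodd hidx => ?_⟩
  obtain ⟨k₀, hk₀⟩ := hr₀ r (by omega) hodd hidx
  refine ⟨k₀, fun k hk => ?_⟩
  intro K L X _ _ _ _ _ _ _ α hα hι
  have hn : 2 * (Nat.card G + 4) ≤ u * r * (2 * k + 1) := by
    have h1 : 1 * r ≤ u * r := Nat.mul_le_mul_right _ (by omega)
    have h2 : u * r * 1 ≤ u * r * (2 * k + 1) := Nat.mul_le_mul_left _ (by omega)
    omega
  obtain ⟨o, χ, e, he⟩ := N891.EP.t_aut G hZ _ hn X (L ≃ₐ[K] L) α hα hι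
  let _ : Algebra ℚ K := DivisionRing.toRatAlgebra
  have h1 := hk₀ k hk (L ≃ₐ[K] L) o χ K L (MulEquiv.refl _)
  refine regSol_iso K L _ _ _ _ e.symm (fun z => ?_) h1
  obtain ⟨x, rfl⟩ := e.surjective z
  rw [e.symm_apply_apply, ← he]
  rfl

/-- Almost all multiples. -/
theorem goodKer_dens8 (hh : HypO) [Nontrivial G]
    (hZ : ∀ z : G, (∀ g : G, z * g = g * z) → z = 1)
    (D : ℕ) (hD : Odd D) (hidx : SplitIdx (cls G) D) :
    AlmostAll D (fun n => GoodKer0 (AWr G n)) := by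
  have hfin : Finite (MulAut G) := Finite.of_injective (fun a : MulAut G => (a : G → G))
    DFunLike.coe_injective
  refine almostAll_all hD (goodKer_dens7 G hh.base hZ D hD hidx)
    (hh.dn D (Nat.card (MulAut G)) _ hD Nat.card_pos fun u _ hu3 hu => ?_)
  obtain ⟨r₀, hr₀⟩ := goodKer8 G hh hZ u hu3 hu
  refine ⟨r₀, fun s hs hodd => ?_⟩
  have h1 : 1 * s ≤ D * s := Nat.mul_le_mul_right _ hD.pos
  exact hr₀ (D * s) (by omega) (hD.mul hodd) (splitIdx_mul hidx s)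

end ker

section main

variable (K L : Type) [Field K] [CharZero K] [Field L] [Algebra K L]
    [FiniteDimensional K L] [IsGalois K L] {B : Type} [Group B] [Finite B]
    (a : B →* (L ≃ₐ[K] L))

/-- **The index theorem for alternating fibre powers.** -/
theorem idx_thm8 (hh : HypO) (ha : Function.Surjective a) :
    ∃ I : ℕ, 0 < I ∧ (∀ d : ℕ, d ∣ I ↔ ∀ m ∈ Degs K L B a, d ∣ m) ∧
      (∀ (χ : (L ≃ₐ[K] L) →* ℤˣ) (n : ℕ), WeakSol K L (AltTw a χ n) (twProj a χ n) → I ∣ n) ∧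
      (Odd I → AlmostAll I (fun n => ∀ χ : (L ≃ₐ[K] L) →* ℤˣ,
        RegSol K L (AltTw a χ n) (twProj a χ n))) ∧
      AlmostAll (2 * I) (fun n => RegSol K L (AltTw a 1 n) (twProj a 1 n)) ∧
      (∀ q : ℕ, Even q → 4 ≤ q → ∃ r₀ : ℕ, ∀ r ≥ r₀, I ∣ r → ∃ k₀ : ℕ, ∀ k ≥ k₀,
        ∀ χ : (L ≃ₐ[K] L) →* ℤˣ, (Odd r ∨ χ = 1) →
          RegSol K L (AltTw a χ (q * r * (2 * k + 1))) (twProj a χ (q * r * (2 * k + 1)))) ∧
      ∀ u : ℕ, u % 4 = 3 → Nat.Coprime u (Nat.card a.ker) → ∃ r₀ : ℕ, ∀ r ≥ r₀, Odd r → I ∣ r →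
        ∃ k₀ : ℕ, ∀ k ≥ k₀, ∀ χ : (L ≃ₐ[K] L) →* ℤˣ,
          RegSol K L (AltTw a χ (u * r * (2 * k + 1))) (twProj a χ (u * r * (2 * k + 1))) := by
  obtain ⟨I, hI0, hI, h1, h2, h3⟩ := idx_thm7 K L a hh.base ha
  have hidx : ∀ n, I ∣ n → IdxDvd K L B a n := fun n hn d hd => ((hI d).2 hd).trans hn
  have hodd : ∀ u : ℕ, u % 4 = 3 → Nat.Coprime u (Nat.card a.ker) → ∃ r₀ : ℕ, ∀ r ≥ r₀, Odd r →
      I ∣ r → ∃ k₀ : ℕ, ∀ k ≥ k₀, ∀ χ : (L ≃ₐ[K] L) →* ℤˣ,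
          RegSol K L (AltTw a χ (u * r * (2 * k + 1))) (twProj a χ (u * r * (2 * k + 1))) := by
    intro u hu3 hu
    obtain ⟨r₀, hr₀⟩ := t8 K L a hh ha u hu3 hu
    exact ⟨r₀, fun r hr hodd hd => hr₀ r hr hodd (hidx r hd)⟩
  refine ⟨I, hI0, hI, h1, fun hIo => ?_, ?_, h2, hodd⟩
  · refine almostAll_all hIo (EP.almostAll_mono h3 fun n hn χ => hn χ (Or.inl hIo))
      (hh.dn I (Nat.card a.ker) _ hIo Nat.card_pos fun u _ hu3 hu => ?_)
    obtain ⟨r₀, hr₀⟩ := hodd u hu3 hu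
    refine ⟨r₀, fun s hs hso => ?_⟩
    have h4 : 1 * s ≤ I * s := Nat.mul_le_mul_right _ hI0
    exact hr₀ (I * s) (by omega) (hIo.mul hso) (Dvd.intro _ rfl)
  · exact EP.almostAll_mono h3 fun n hn => hn 1 (Or.inr rfl)

end main

/-- The uniform form of the index theorem. -/
theorem idx_thmu8 (hh : HypO) (H B : Type) [Group H] [Finite H] [Group B] [Finite B] (a : B →* H)
    (ha : Function.Surjective a) :
    ∃ I : ℕ, 0 < I ∧ (∀ d : ℕ, d ∣ I ↔ ∀ (U : Subgroup H) (s : U →* B), (∀ h : U, a (s h) = h) →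
      d ∣ U.index) ∧
      (Odd I → AlmostAll I (fun n => ∀ χ : H →* ℤˣ, RSK ℚ (twProj a χ n))) ∧
      AlmostAll (2 * I) (fun n => RSK ℚ (twProj a 1 n)) := by
  obtain ⟨I, hI0, hI, -, h3⟩ := idx_thmu7 hh.base H B a ha
  have hidx : ∀ n, I ∣ n → SplitIdx a n := fun n hn d hd => ((hI d).2 hd).trans hn
  refine ⟨I, hI0, hI, fun hIo => ?_, EP.almostAll_mono h3 fun n hn => hn 1 (Or.inr rfl)⟩
  refine almostAll_all hIo (EP.almostAll_mono h3 fun n hn χ => hn χ (Or.inl hIo))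
    (hh.dn I (Nat.card a.ker) _ hIo Nat.card_pos fun u _ hu3 hu => ?_)
  obtain ⟨r₀, hr₀⟩ := t8u hh H B a ha u hu3 hu
  refine ⟨r₀, fun s hs hso => ?_⟩
  have h4 : 1 * s ≤ I * s := Nat.mul_le_mul_right _ hI0
  exact hr₀ (I * s) (by omega) (hIo.mul hso) (hidx _ (Dvd.intro _ rfl))

end Pool.Agent.N70.EO
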