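import Mathlib
import Pool.Agent.N70.EQ.Fin
import Pool.Agent.N70.EO.TF
import Pool.Agent.N137.EO.SG
import Pool.Agent.N344.EO.EV
import Pool.Agent.N558.EO.DY
import Pool.Agent.N607.EO.DNO
import Pool.Agent.N615.EO.DN1
import Pool.Agent.N624.EO.LY
import Pool.Agent.N665.EO.GXO

/-!
The inputs of the project EO, all proved.
-/

set_option autoImplicit false

namespace Pool.Agent.N70.EO

/-- All inputs. -/
theorem hypO : HypO where
  base := EQ.hyp
  ev := Pool.Agent.N344.EO.t_ev
  gx := Pool.Agent.N665.EO.t_gxo Pool.Agent.N137.EO.t_sg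
  ly := Pool.Agent.N624.EO.t_ly
  dy := Pool.Agent.N558.EO.t_dy
  dn := Pool.Agent.N607.EO.t_dno Pool.Agent.N615.EO.t_dna

end Pool.Agent.N70.EO
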