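import Mathlib
import Pool.Agent.N70.EQ.VocT

/-!
# Vocabulary: almost all degrees

`Cls ℚ` is the class of homomorphisms of the file `Pool/Agent/TH444/TW/ClsDef.lean`.
-/

set_option autoImplicit false

namespace Pool.Agent.N70.EO.Voc

open Pool.Agent.N70.EP.Voc
open Pool.Agent.N70.EQ.Voc (KerClass)

open scoped Classical in
/-- Almost all natural numbers (in the sense of natural density) have the property `A`: the number of
the `n < x` which do not have it is `o(x)`. -/
def AlmostAllNumbers (A : ℕ → Prop) : Prop :=
  ∀ ε : ℝ, 0 < ε → ∃ N : ℕ, ∀ x ≥ N,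
    (((Finset.range x).filter fun n => ¬ A n).card : ℝ) ≤ ε * x

/-- The sets `A G` and `S G` are large: if the outer index of the nontrivial finite group `G` with
trivial centre is `D`, then `S G` contains all large multiples of `D`, and `A G` contains almost all
multiples of `D` if `D` is odd. -/
def Large (A S : ∀ (G : Type) [Group G], Set ℕ) : Prop :=
  ∀ (G : Type) [Group G], Centreless G → ∀ D : ℕ, OuterIndex G D →
    (∃ n₀ : ℕ, ∀ n ≥ n₀, D ∣ n → n ∈ S G) ∧
    (Odd D → AlmostAllNumbers (fun n => D ∣ n → n ∈ A G))

/-- The class of homomorphisms, depending on a set `A₁ α χ` of natural numbers for every homomorphism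
`α : B → W` and every character `χ : W → {1, -1}` and two sets `A₂ G`, `S G` of natural numbers for
every group `G`. It is the smallest class of homomorphisms of groups which
* contains the class `Cls ℚ` of the starting results (for example all split epimorphisms with a
  finite abelian kernel),
* contains the projections `twPr α χ n : TwPow α χ n → W` of the alternating fibre powers of a
  homomorphism `α : B → W`, `B` finite, twisted by `χ`, if `n` is in `A₁ α χ`,
* contains all epimorphisms whose kernel is in the class `KerClass A₂ S`,
* is closed under composition, and under quotients (if `p ∘ q` is in the class and `q` is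
  surjective, then `p` is in the class). -/
inductive StepClass (A₁ : ∀ (W B : Type) [Group W] [Group B], (B →* W) → (W →* ℤˣ) → Set ℕ)
    (A₂ S : ∀ (G : Type) [Group G], Set ℕ) :
    ∀ {W W' : Type} [Group W] [Group W'], (W' →* W) → Prop
  | old {W W' : Type} [Group W] [Group W'] (p : W' →* W)
      (h : Pool.Agent.TH444.TW.Cls ℚ p) : StepClass A₁ A₂ S p
  | alternating {W B : Type} [Group W] [Group B] [Finite B] (α : B →* W) (χ : W →* ℤˣ) (n : ℕ)
      (hn : n ∈ A₁ W B α χ) : StepClass A₁ A₂ S (twPr α χ n)
  | kernel {W W' : Type} [Group W] [Group W'] (p : W' →* W) (hp : Function.Surjective p)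
      (h : KerClass A₂ S p.ker) : StepClass A₁ A₂ S p
  | comp {W W' W'' : Type} [Group W] [Group W'] [Group W''] (p : W' →* W) (q : W'' →* W')
      (hp : StepClass A₁ A₂ S p) (hq : StepClass A₁ A₂ S q) : StepClass A₁ A₂ S (p.comp q)
  | quot {W W' W'' : Type} [Group W] [Group W'] [Group W''] (p : W' →* W) (q : W'' →* W')
      (hq : Function.Surjective q) (hpq : StepClass A₁ A₂ S (p.comp q)) : StepClass A₁ A₂ S p

/-- The sets `A₁ α χ` are large: if `α : B → W` is a surjective homomorphism of finite groups of index
`I`, then `A₁ α χ` contains, for all characters `χ`, almost all multiples of `I` if `I` is odd, and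
`A₁ α 1` contains almost all multiples of `2 I` in all cases. -/
def LargeHom (A₁ : ∀ (W B : Type) [Group W] [Group B], (B →* W) → (W →* ℤˣ) → Set ℕ) : Prop :=
  ∀ (W B : Type) [Group W] [Finite W] [Group B] [Finite B] (α : B →* W),
    Function.Surjective α → ∀ I : ℕ, IsSplittingIndex α I →
      AlmostAllNumbers (fun n => (Odd I → I ∣ n → ∀ χ : W →* ℤˣ, n ∈ A₁ W B α χ) ∧
        (2 * I ∣ n → n ∈ A₁ W B α 1))

end Pool.Agent.N70.EO.Voc
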