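import Mathlib
import Pool.Agent.N70.EO.VocE
import Pool.Agent.N70.EO.Fin
import Pool.Agent.N70.EQ.VocRB
import Pool.Agent.N70.EP.VocIB

/-!
Translations.
-/

set_option autoImplicit false
set_option linter.unusedSectionVars false
set_option linter.unusedSimpArgs false

namespace Pool.Agent.N70.EO

open Pool.Agent.H391R2 Pool.Agent.H391R2.T4
open Pool.Agent.N70.EP.Voc
open Pool.Agent.N70.EQ.Voc (KerClass)
open Pool.Agent.N70.EO.Voc
open Pool.Agent.Y793 (AWr AltTw twProj)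
open Pool.Agent.TH444.TW (RSK infinite_ratFunc finite_of_ker)
open Pool.Agent.N600.UK (CL cl_of_center)
open Pool.Agent.N70.EP (setA GoodKer0 splitIdx_of_outer isSplittingIndex_unique rsk_twPr
  rsk_of_good AlmostAll realizableIff_of twPr_surj altRealizable_of splitIdx_one)
open Pool.Agent.N70.EQ (setS setS_large kernel_main7)

section aa

open scoped Classical in
theorem aan_iff {D : ℕ} {A : ℕ → Prop} :
    AlmostAllNumbers (fun n => D ∣ n → A n) ↔ AlmostAll D A := by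
  have h : ∀ x : ℕ, ((Finset.range x).filter fun n => ¬ (D ∣ n → A n)) =
      ((Finset.range x).filter fun n => D ∣ n ∧ ¬ A n) := by
    intro x
    refine Finset.filter_congr fun n _ => ?_
    exact Classical.not_imp
  constructor
  · intro h1 ε hε
    obtain ⟨N, hN⟩ := h1 ε hε
    refine ⟨N, fun x hx => ?_⟩
    refine le_trans (le_of_eq ?_) (hN x hx)
    rw [← h]
    congr!
  · intro h1 ε hε
    obtain ⟨N, hN⟩ := h1 ε hε
    refine ⟨N, fun x hx => ?_⟩
    refine le_trans (le_of_eq ?_) (hN x hx)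
    rw [← h]
    congr!

open scoped Classical in
theorem aan_mono {A B : ℕ → Prop} (hA : AlmostAllNumbers A) (h : ∀ n, A n → B n) :
    AlmostAllNumbers B := by
  intro ε hε
  obtain ⟨N, hN⟩ := hA ε hε
  refine ⟨N, fun x hx => le_trans ?_ (hN x hx)⟩
  refine Nat.cast_le.2 (Finset.card_le_card ?_)
  intro n hn
  rw [Finset.mem_filter] at hn ⊢
  exact ⟨hn.1, fun h1 => hn.2 (h n h1)⟩

open scoped Classical in
theorem aan_and {A B : ℕ → Prop} (hA : AlmostAllNumbers A) (hB : AlmostAllNumbers B) :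
    AlmostAllNumbers (fun n => A n ∧ B n) := by
  intro ε hε
  obtain ⟨N₁, hN₁⟩ := hA (ε / 2) (by positivity)
  obtain ⟨N₂, hN₂⟩ := hB (ε / 2) (by positivity)
  refine ⟨N₁ + N₂, fun x hx => ?_⟩
  have h3 := hN₁ x (by omega)
  have h4 := hN₂ x (by omega)
  have h5 : ((Finset.range x).filter fun n => ¬ (A n ∧ B n)).card ≤
      ((Finset.range x).filter fun n => ¬ A n).card +
      ((Finset.range x).filter fun n => ¬ B n).card := by
    refine (Finset.card_le_card ?_).trans (Finset.card_union_le _ _)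
    intro n hn
    rw [Finset.mem_filter] at hn
    rw [Finset.mem_union, Finset.mem_filter, Finset.mem_filter]
    by_cases h : A n
    · exact Or.inr ⟨hn.1, fun h' => hn.2 ⟨h, h'⟩⟩
    · exact Or.inl ⟨hn.1, h⟩
  have h6 : (((Finset.range x).filter fun n => ¬ (A n ∧ B n)).card : ℝ) ≤
      ((Finset.range x).filter fun n => ¬ A n).card +
      ((Finset.range x).filter fun n => ¬ B n).card := by
    exact_mod_cast h5
  have h7 : (((Finset.range x).filter fun n => ¬ (A n ∧ B n)).card : ℝ) ≤ ε * x := by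
    linarith
  refine le_trans (le_of_eq ?_) h7
  congr!

open scoped Classical in
/-- All large numbers. -/
theorem aan_large {A : ℕ → Prop} (n₀ : ℕ) (h : ∀ n ≥ n₀, A n) : AlmostAllNumbers A := by
  intro ε hε
  obtain ⟨N, hN⟩ := exists_nat_ge (n₀ / ε)
  refine ⟨N, fun x hx => ?_⟩
  have h1 : ((Finset.range x).filter fun n => ¬ A n).card ≤ n₀ := by
    refine (Finset.card_le_card (t := Finset.range n₀) ?_).trans (by rw [Finset.card_range])
    intro n hn
    rw [Finset.mem_filter] at hn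
    rw [Finset.mem_range]
    by_contra h2
    exact hn.2 (h n (by omega))
  have h2 : (n₀ : ℝ) ≤ ε * x := by
    have h3 : (N : ℝ) ≤ x := by exact_mod_cast hx
    have h4 : n₀ / ε ≤ x := hN.trans h3
    rw [div_le_iff₀ hε] at h4
    linarith
  exact le_trans (by exact_mod_cast h1) h2

end aa

theorem setA_dens8 (G : Type) [Group G] (hG : Centreless G) (D : ℕ)
    (hD : OuterIndex G D) (hodd : Odd D) :
    AlmostAllNumbers (fun n => D ∣ n → n ∈ setA G) := by
  have h1 := hG.finite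
  have h2 := hG.nontrivial
  exact aan_iff.2 (goodKer_dens8 G hypO (cl_of_center hG.center) D hodd (splitIdx_of_outer G hD))

theorem large8 : Large (fun G _ => setA G) (fun G _ => setS G) :=
  fun G _ hG D hD => ⟨setS_large G hG D hD, setA_dens8 G hG D hD⟩

/-- The index theorem. -/
theorem voc_index8 (K L : Type) [Field K] [CharZero K] [Field L] [Algebra K L]
    [FiniteDimensional K L] [IsGalois K L] {B : Type} [Group B] [Finite B]
    (α : B →* (L ≃ₐ[K] L)) (hα : Function.Surjective α) :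
    ∃ I : ℕ, IsIndex α I ∧
      (∀ (χ : (L ≃ₐ[K] L) →* ℤˣ) (n : ℕ), TwWeak α χ n ∨ TwRegular α χ n → I ∣ n) ∧
      (Odd I → AlmostAllNumbers (fun n => I ∣ n → ∀ χ : (L ≃ₐ[K] L) →* ℤˣ,
        TwRegular α χ n)) ∧
      AlmostAllNumbers (fun n => 2 * I ∣ n → TwRegular α 1 n) ∧
      (∀ q : ℕ, Even q → 4 ≤ q → ∃ r₀ : ℕ, ∀ r ≥ r₀, I ∣ r → ∃ k₀ : ℕ, ∀ k ≥ k₀,
        ∀ χ : (L ≃ₐ[K] L) →* ℤˣ, Odd r ∨ χ = 1 → TwRegular α χ (q * r * (2 * k + 1))) ∧
      ∀ u : ℕ, u % 4 = 3 → Nat.Coprime u (Nat.card α.ker) → ∃ r₀ : ℕ, ∀ r ≥ r₀, Odd r →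
        I ∣ r → ∃ k₀ : ℕ, ∀ k ≥ k₀, ∀ χ : (L ≃ₐ[K] L) →* ℤˣ,
          TwRegular α χ (u * r * (2 * k + 1)) := by
  obtain ⟨I, hI0, hI, h1, h2, h3, h4, h5⟩ := idx_thm8 K L α hypO hα
  refine ⟨I, EP.isIndex_of K L α hI0 hI, ?_, fun hIo => ?_, ?_, ?_, ?_⟩
  · rintro χ n (h | h)
    · exact h1 χ n (EP.weak_tw' K L α χ n h)
    · have hW : Finite (Wr B n) := finite_wr B n
      exact h1 χ n (Pool.Agent.N600.NS.weak_of_reg K L _ _ ((EP.regular_iff K L α χ n).1 h))
  · refine aan_iff.2 (EP.almostAll_mono (h2 hIo) fun n hn χ =>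
      (EP.regular_iff K L α χ n).2 (hn χ))
  · exact aan_iff.2 (EP.almostAll_mono h3 fun n hn => (EP.regular_iff K L α 1 n).2 hn)
  · intro q hq hq4
    obtain ⟨r₀, hr₀⟩ := h4 q hq hq4
    refine ⟨r₀, fun r hr hd => ?_⟩
    obtain ⟨k₀, hk₀⟩ := hr₀ r hr hd
    exact ⟨k₀, fun k hk χ hχ => (EP.regular_iff K L α χ _).2 (hk₀ k hk χ hχ)⟩
  · intro u hu3 hu
    obtain ⟨r₀, hr₀⟩ := h5 u hu3 hu
    refine ⟨r₀, fun r hr hodd hd => ?_⟩
    obtain ⟨k₀, hk₀⟩ := hr₀ r hr hodd hd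
    exact ⟨k₀, fun k hk χ => (EP.regular_iff K L α χ _).2 (hk₀ k hk χ)⟩

/-- The sets of natural numbers. -/
def setC {W B : Type} [Group W] [Group B] (α : B →* W) (χ : W →* ℤˣ) : Set ℕ :=
  {n | RSK ℚ (twPr α χ n)}

theorem setC_dens {H B : Type} [Group H] [Finite H] [Group B] [Finite B] (α : B →* H)
    (hα : Function.Surjective α) (I : ℕ) (hI : IsSplittingIndex α I) :
    AlmostAllNumbers (fun n => (Odd I → I ∣ n → ∀ χ : H →* ℤˣ, n ∈ setC α χ) ∧
        (2 * I ∣ n → n ∈ setC α 1)) := by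
  obtain ⟨I', hI0, hI', h1, h2⟩ := idx_thmu8 hypO H B α hα
  have h3 : I' = I := isSplittingIndex_unique ⟨hI0, hI'⟩ hI
  subst h3
  refine aan_and ?_ (aan_iff.2 (EP.almostAll_mono h2 fun n hn => rsk_twPr α 1 n hn))
  by_cases hIo : Odd I'
  · exact aan_mono (aan_iff.2 (EP.almostAll_mono (h1 hIo) fun n hn χ => rsk_twPr α χ n (hn χ)))
      fun n hn _ => hn
  · exact aan_large 0 fun n _ h => absurd h hIo

theorem largeHom8 : LargeHom (fun _ _ _ _ α χ => setC α χ) :=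
  fun _ _ _ _ _ _ α hα I hI => setC_dens α hα I hI

theorem step_main8 (A₁ : ∀ (W B : Type) [Group W] [Group B], (B →* W) → (W →* ℤˣ) → Set ℕ)
    (A₂ S : ∀ (G : Type) [Group G], Set ℕ)
    (h₁ : ∀ (W B : Type) [Group W] [Group B] (α : B →* W) (χ : W →* ℤˣ) (n : ℕ),
      n ∈ A₁ W B α χ → n ∈ setC α χ)
    (h₂ : ∀ (G : Type) [Group G] (n : ℕ), n ∈ A₂ G → n ∈ setA G)
    (h₃ : ∀ (G : Type) [Group G] (n : ℕ), n ∈ S G → n ∈ setS G)
    {W W' : Type} [Group W] [Group W'] {p : W' →* W} (h : StepClass A₁ A₂ S p) :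
    Finite W → Finite W' ∧ RSK ℚ p := by
  induction h with
  | old p h => exact fun hW => ⟨h.finite, h.rsk⟩
  | @alternating W B _ _ _ α χ n hn =>
    intro hW
    have hf : Finite (Wr B n) := finite_wr B n
    exact ⟨Finite.of_injective Subtype.val Subtype.val_injective, h₁ W B α χ n hn⟩
  | kernel p hp h =>
    intro hW
    obtain ⟨h3, -, h5⟩ := kernel_main7 A₂ S h₂ h₃ _ h
    exact ⟨finite_of_ker p, rsk_of_good h5 p hp ⟨MulEquiv.refl _⟩⟩
  | comp p q hp hq ihp ihq =>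
    intro hW
    obtain ⟨h1, h2⟩ := ihp hW
    obtain ⟨h3, h4⟩ := ihq h1
    exact ⟨h3, RSK.comp h2 h4⟩
  | quot p q hq hpq ih =>
    intro hW
    obtain ⟨h1, h2⟩ := ih hW
    exact ⟨Finite.of_surjective q hq, RSK.quot q hq (fun x => rfl) h2⟩

theorem twIff_of {H B : Type} [Group H] [Finite H] [Group B] [Finite B] (α : B →* H)
    (hα : Function.Surjective α) (χ : H →* ℤˣ) (n : ℕ) (hn : 2 ≤ n) (h : n ∈ setC α χ) :
    TwIff α χ n := by
  have hf : Finite (Wr B n) := finite_wr B n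
  have hf2 : Finite (TwPow α χ n) := Finite.of_injective Subtype.val Subtype.val_injective
  exact realizableIff_of (twPr α χ n) (twPr_surj α hα χ n hn) h

/-- The general case. -/
theorem twIff_dens8 {H B : Type} [Group H] [Finite H] [Group B] [Finite B] (α : B →* H)
    (hα : Function.Surjective α) (I : ℕ) (hI : IsSplittingIndex α I) :
    AlmostAllNumbers (fun n => (Odd I → I ∣ n → ∀ χ : H →* ℤˣ, TwIff α χ n) ∧
      (2 * I ∣ n → TwIff α 1 n)) := by
  refine aan_mono (aan_and (setC_dens α hα I hI) (aan_large 2 fun n hn => hn))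
    fun n hn => ⟨fun h1 h2 χ => twIff_of α hα χ n hn.2 (hn.1.1 h1 h2 χ),
      fun h1 => twIff_of α hα 1 n hn.2 (hn.1.2 h1)⟩

theorem alt_struct8 (G : Type) [Group G] [Finite G] (u : ℕ) (hu3 : u % 4 = 3)
    (hu : Nat.Coprime u (Nat.card G)) :
    ∃ r₀ : ℕ, ∀ r ≥ r₀, Odd r → ∃ k₀ : ℕ, ∀ k ≥ k₀, AltRealizable G (u * r * (2 * k + 1)) := by
  have hk : (1 : G →* PUnit.{1}).ker = ⊤ := by
    rw [Subgroup.eq_top_iff']
    intro x
    rfl
  have hc : Nat.card (1 : G →* PUnit.{1}).ker = Nat.card G := by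
    rw [hk]
    exact Subgroup.card_top
  obtain ⟨r₀, hr₀⟩ := t8u hypO PUnit.{1} G 1 (fun _ => ⟨1, rfl⟩) u hu3 (by rw [hc]; exact hu)
  refine ⟨r₀, fun r hr hodd => ?_⟩
  obtain ⟨k₀, hk₀⟩ := hr₀ r hr hodd (splitIdx_one G r)
  exact ⟨k₀, fun k hk => altRealizable_of G _ (hk₀ k hk 1)⟩

theorem alt_dens8 (G : Type) [Group G] [Finite G] :
    AlmostAllNumbers (fun n => AltRealizable G n) := by
  have h1 : AlmostAll 1 (fun n => AltRealizable G n) := by
    refine almostAll_all (D := 1) odd_one (EQ.alt_dens7 EQ.hyp G)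
      (hypO.dn 1 (Nat.card G) _ odd_one Nat.card_pos fun u _ hu3 hu => ?_)
    obtain ⟨r₀, hr₀⟩ := alt_struct8 G u hu3 hu
    refine ⟨r₀, fun s hs hodd => ?_⟩
    rw [one_mul]
    exact hr₀ s hs hodd
  exact aan_mono (aan_iff.2 h1) fun n hn => hn (one_dvd n)

end Pool.Agent.N70.EO
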